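import Pool.Agent.Q309.AP.Fin

/-!
Affine varieties: bounds for the size of the points in sequences given by monic linear recurrences,
and the sequences of unbounded degree on varieties with images of `G_m`.
-/

set_option autoImplicit false

namespace Pool.Agent.Q309.AP

open MvPolynomial
open Pool.Agent.Q1.SL
open Pool.Agent.TH143.HE (gm homog homog_homog eval_homog)

variable {n : ℕ}

/-- The points `x 0, x 1, ...` of the affine `n`-space over `L` satisfy, for `m ≤ M`, monic
inhomogeneous linear recurrences `x (m + r) j = b(t m) + ∑ a_k(t m) x (m + k) j`, `k < r`, with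
polynomials `a_k`, `b` over `L` of degree at most `e` and size at most `h`; the points
`t 0, ..., t M` are different elements of `L` of size at most `1` with `t (m + 1) = α t m + β`; the
first `r` points have size at most `h`. Here the size is given by the valuation `v`. -/
structure BdSeq {L : Type} [Field L] {Γ : Type} [LinearOrderedCommGroupWithZero Γ]
    (v : Valuation L Γ) (h : Γ) (r e M : ℕ) (x : ℕ → Fin n → L) : Prop where
  eqn : ∃ (t : ℕ → L) (α β : L), (∀ m, t (m + 1) = α * t m + β) ∧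
    (∀ i j, i < j → j ≤ M → t i ≠ t j) ∧ (∀ m ≤ M, v (t m) ≤ 1) ∧
    ∀ j, ∃ (a : ℕ → Polynomial L) (b : Polynomial L),
      (∀ k, (a k).natDegree ≤ e ∧ ∀ i, v ((a k).coeff i) ≤ h) ∧
      (b.natDegree ≤ e ∧ ∀ i, v (b.coeff i) ≤ h) ∧
      ∀ m ≤ M, x (m + r) j = b.eval (t m) + ∑ k ∈ Finset.range r, (a k).eval (t m) * x (m + k) j
  init : ∀ i < r, ∀ j, v (x i j) ≤ h

theorem BdSeq.monSeq {L : Type} [Field L] {Γ : Type} [LinearOrderedCommGroupWithZero Γ]
    {v : Valuation L Γ} {h : Γ} {r e M : ℕ} {x : ℕ → Fin n → L} (hx : BdSeq v h r e M x) :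
    MonSeq r e M x := by
  obtain ⟨t, α, β, h1, h2, -, h3⟩ := hx.eqn
  refine ⟨⟨t, α, β, h1, h2, fun j => ?_⟩⟩
  obtain ⟨a, b, ha, hb, hr⟩ := h3 j
  exact ⟨a, b, fun k => (ha k).1, hb.1, hr⟩

theorem val_eval {L : Type} [Field L] {Γ : Type} [LinearOrderedCommGroupWithZero Γ]
    {v : Valuation L Γ} {h : Γ} {P : Polynomial L} (hP : ∀ i, v (P.coeff i) ≤ h) {t : L}
    (ht : v t ≤ 1) : v (P.eval t) ≤ h := by
  rw [Polynomial.eval_eq_sum_range]
  refine Valuation.map_sum_le v fun i _ => ?_
  rw [map_mul, map_pow]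
  calc v (P.coeff i) * v t ^ i ≤ h * 1 := mul_le_mul' (hP i) (pow_le_one' ht i)
    _ = h := mul_one h

open Classical in
theorem BdSeq.bound {L : Type} [Field L] {Γ : Type} [LinearOrderedCommGroupWithZero Γ]
    {v : Valuation L Γ} {h : Γ} (h1 : 1 ≤ h) {r e M : ℕ} {x : ℕ → Fin n → L}
    (hx : BdSeq v h r e M x) : ∀ m ≤ M, ∀ j,
      v (x m j) ≤ h ^ (Finset.image x (Finset.range (m + 1))).card := by
  obtain ⟨t, α, β, -, -, ht, hj⟩ := hx.eqn
  intro m
  induction m using Nat.strong_induction_on with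
  | _ m ih =>
    intro hm j
    have hmono : ∀ i ≤ m, (Finset.image x (Finset.range (i + 1))).card ≤
        (Finset.image x (Finset.range (m + 1))).card := fun i hi =>
      Finset.card_le_card (Finset.image_subset_image (Finset.range_subset_range.2 (by omega)))
    by_cases hold : ∃ i < m, x i = x m
    · obtain ⟨i, hi, he⟩ := hold
      rw [← he]
      exact (ih i hi (by omega) j).trans (pow_le_pow_right₀ h1 (hmono i hi.le))
    · push Not at hold
      have hpos : 1 ≤ (Finset.image x (Finset.range (m + 1))).card :=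
        Finset.card_pos.2 ⟨x m, Finset.mem_image_of_mem _ (Finset.self_mem_range_succ m)⟩
      have h2 : h ≤ h ^ (Finset.image x (Finset.range (m + 1))).card := by
        calc h = h ^ 1 := (pow_one h).symm
          _ ≤ _ := pow_le_pow_right₀ h1 hpos
      rcases lt_or_ge m r with hmr | hmr
      · exact (hx.init m hmr j).trans h2
      · obtain ⟨s, rfl⟩ : ∃ s, m = s + r := ⟨m - r, by omega⟩
        obtain ⟨a, b, ha, hb, hr⟩ := hj j
        rw [hr s (by omega)]
        refine (Valuation.map_add v _ _).trans (max_le ?_ ?_)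
        · exact (val_eval hb.2 (ht s (by omega))).trans h2
        · refine Valuation.map_sum_le v fun k hk => ?_
          have hkr := Finset.mem_range.1 hk
          rw [map_mul]
          have h3 : (Finset.image x (Finset.range (s + k + 1))).card + 1 ≤
              (Finset.image x (Finset.range (s + r + 1))).card := by
            have h4 : insert (x (s + r)) (Finset.image x (Finset.range (s + k + 1))) ⊆
                Finset.image x (Finset.range (s + r + 1)) := by
              intro y hy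
              rcases Finset.mem_insert.1 hy with rfl | hy
              · exact Finset.mem_image_of_mem _ (Finset.self_mem_range_succ _)
              · exact Finset.image_subset_image (Finset.range_subset_range.2 (by omega)) hy
            have h5 : x (s + r) ∉ Finset.image x (Finset.range (s + k + 1)) := by
              intro hmem
              obtain ⟨i, hi, he⟩ := Finset.mem_image.1 hmem
              exact hold i (by have := Finset.mem_range.1 hi; omega) he
            rw [← Finset.card_insert_of_notMem h5]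
            exact Finset.card_le_card h4
          calc v ((a k).eval (t s)) * v (x (s + k) j)
              ≤ h * h ^ (Finset.image x (Finset.range (s + k + 1))).card :=
                mul_le_mul' (val_eval (ha k).2 (ht s (by omega))) (ih (s + k) (by omega) (by omega) j)
            _ = h ^ ((Finset.image x (Finset.range (s + k + 1))).card + 1) := (pow_succ' _ _).symm
            _ ≤ _ := pow_le_pow_right₀ h1 h3

/-- **The size of the points.** -/
theorem BdSeq.size {L : Type} [Field L] {Γ : Type} [LinearOrderedCommGroupWithZero Γ]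
    {v : Valuation L Γ} {h : Γ} (h1 : 1 ≤ h) {r e M N : ℕ} {x : ℕ → Fin n → L}
    (hx : BdSeq v h r e M x) (hI : ∃ I : Finset ℕ, I.card ≤ N ∧ ∀ m ≤ M, ∃ i ∈ I, i ≤ m ∧ x i = x m)
    (m : ℕ) (hm : m ≤ M) (j : Fin n) : v (x m j) ≤ h ^ N := by
  classical
  obtain ⟨I, hI, hIm⟩ := hI
  refine (hx.bound h1 m hm j).trans (pow_le_pow_right₀ h1 (le_trans ?_ hI))
  refine le_trans (Finset.card_le_card (t := Finset.image x I) ?_) Finset.card_image_le
  intro y hy
  obtain ⟨i, hi, rfl⟩ := Finset.mem_image.1 hy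
  obtain ⟨k, hk, -, he⟩ := hIm i (by have := Finset.mem_range.1 hi; omega)
  rw [← he]
  exact Finset.mem_image_of_mem _ hk

/-! ### The sequence of multiples of an image of `G_m` -/

/-- the function field of `G_m`, and its functions as Laurent polynomials: `LaurLe K f` says that `f`
is a Laurent polynomial in `u` with exponents between `-K` and `K` -/
def LaurLe (K : ℕ) (f : RatFunc ℂ) : Prop :=
  ∃ P : Polynomial ℂ, P.natDegree ≤ 2 * K ∧ f * RatFunc.X ^ K = algebraMap (Polynomial ℂ) (RatFunc ℂ) P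

/-- polynomials in `u ^ k` -/
noncomputable def exm (k : ℕ) : Polynomial ℂ →ₐ[ℂ] RatFunc ℂ :=
  (IsScalarTower.toAlgHom ℂ (Polynomial ℂ) (RatFunc ℂ)).comp (Polynomial.expand ℂ k)

theorem exm_apply (k : ℕ) (P : Polynomial ℂ) :
    exm k P = algebraMap (Polynomial ℂ) (RatFunc ℂ) (Polynomial.expand ℂ k P) := rfl

theorem exm_X (k : ℕ) : exm k Polynomial.X = RatFunc.X ^ k := by
  rw [exm_apply, Polynomial.expand_X, map_pow, RatFunc.algebraMap_X]

theorem exm_eq_zero {k : ℕ} (hk : 0 < k) {P : Polynomial ℂ} : exm k P = 0 ↔ P = 0 := by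
  rw [exm_apply, map_eq_zero_iff _ (RatFunc.algebraMap_injective ℂ), Polynomial.expand_eq_zero hk]

/-- the sequence of the maps `u ↦ γ (u ^ (m + 1))`, `γ` the morphism from `G_m` given by `l` and `p` -/
noncomputable def fam (l : ℕ) (p : Fin n → Polynomial ℂ) (m : ℕ) (j : Fin n) : RatFunc ℂ :=
  exm (m + 1) (p j) / exm (m + 1) (Polynomial.X ^ l)

theorem RatFunc_X_ne : (RatFunc.X : RatFunc ℂ) ≠ 0 := RatFunc.X_ne_zero

theorem fam_zero (l : ℕ) (p : Fin n → Polynomial ℂ) (m : ℕ) (F : MvPolynomial (Fin n) ℂ) :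
    aeval (fam l p m) F = 0 ↔ aeval (pc l p) (homog F) = 0 := by
  have hw : exm (m + 1) (Polynomial.X ^ l) ≠ 0 := by
    rw [map_pow, exm_X]
    exact pow_ne_zero _ (pow_ne_zero _ RatFunc_X_ne)
  have h1 : exm (m + 1) (aeval (pc l p) (homog F)) =
      aeval (fun j => exm (m + 1) (pc l p j)) (homog F) :=
    MvPolynomial.comp_aeval_apply (f := pc l p) (exm (m + 1)) (homog F)
  have h2 : (fun j => exm (m + 1) (pc l p j)) =
      fun j => exm (m + 1) (Polynomial.X ^ l) * pj (fam l p m) j := by
    funext j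
    refine Fin.cases ?_ (fun i => ?_) j
    · exact (mul_one _).symm
    · exact (mul_div_cancel₀ _ hw).symm
  have h3 : aeval (fun j => exm (m + 1) (Polynomial.X ^ l) * pj (fam l p m) j) (homog F) =
      exm (m + 1) (Polynomial.X ^ l) ^ F.totalDegree * aeval (pj (fam l p m)) (homog F) :=
    Pool.Agent.TH143.HE.eval₂_smul_homog (algebraMap ℂ (RatFunc ℂ)) _ _ (homog_homog F)
  rw [← exm_eq_zero (Nat.succ_pos m), h1, h2, h3, mul_eq_zero, aeval_homog]
  constructor
  · exact fun h => Or.inr h
  · exact fun h => h.resolve_left (pow_ne_zero _ hw)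

theorem fam_sum (l : ℕ) (p : Fin n → Polynomial ℂ) {d : ℕ} (hp : ∀ j, (p j).natDegree ≤ d) (m : ℕ)
    (j : Fin n) : fam l p m j = ∑ i ∈ Finset.range (d + 1),
      (algebraMap ℂ (RatFunc ℂ) ((p j).coeff i) * (RatFunc.X ^ i / RatFunc.X ^ l)) *
        (RatFunc.X ^ i / RatFunc.X ^ l) ^ m := by
  have h1 : exm (m + 1) (p j) = ∑ i ∈ Finset.range (d + 1),
      algebraMap ℂ (RatFunc ℂ) ((p j).coeff i) * (RatFunc.X ^ (m + 1)) ^ i := by
    conv_lhs => rw [(p j).as_sum_range' (d + 1) (by have := hp j; omega)]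
    rw [map_sum]
    refine Finset.sum_congr rfl fun i _ => ?_
    rw [← Polynomial.C_mul_X_pow_eq_monomial, map_mul, map_pow, exm_X]
    congr 1
    exact (exm (m + 1)).commutes _
  unfold fam
  rw [h1, map_pow, exm_X, Finset.sum_div]
  refine Finset.sum_congr rfl fun i _ => ?_
  have h2 := RatFunc_X_ne
  rw [div_pow, ← pow_mul, ← pow_mul, ← pow_mul, ← pow_mul]
  field_simp
  ring

theorem geo_rec {K : Type} [Field K] (s : ℕ) (w c : ℕ → K) (m : ℕ) :
    ∑ k ∈ Finset.range (s + 1), (∏ i ∈ Finset.range s, (Polynomial.X - Polynomial.C (w i))).coeff k *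
      ∑ i ∈ Finset.range s, c i * w i ^ (m + k) = 0 := by
  set χ : Polynomial K := ∏ i ∈ Finset.range s, (Polynomial.X - Polynomial.C (w i)) with hχ
  have hχd : χ.natDegree = s := by
    rw [hχ, Polynomial.natDegree_prod_of_monic _ _ fun i _ => Polynomial.monic_X_sub_C _]
    simp
  have h3 : ∀ k ∈ Finset.range (s + 1), χ.coeff k * ∑ i ∈ Finset.range s, c i * w i ^ (m + k) =
      ∑ i ∈ Finset.range s, c i * w i ^ m * (χ.coeff k * w i ^ k) := by
    intro k _
    rw [Finset.mul_sum]
    refine Finset.sum_congr rfl fun i _ => ?_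
    rw [pow_add]
    ring
  rw [Finset.sum_congr rfl h3, Finset.sum_comm]
  refine Finset.sum_eq_zero fun i hi => ?_
  rw [← Finset.mul_sum, ← Polynomial.eval_eq_sum_range' (by rw [hχd]; omega), hχ,
    Polynomial.eval_prod, Finset.prod_eq_zero hi (by rw [Polynomial.eval_sub, Polynomial.eval_X,
      Polynomial.eval_C, sub_self]), mul_zero]

theorem coeff_bd {K : Type} [Field K] {Γ : Type} [LinearOrderedCommGroupWithZero Γ]
    {v : Valuation K Γ} {h : Γ} (h1 : 1 ≤ h) (s : ℕ) (w : ℕ → K) (hw : ∀ i < s, v (w i) ≤ h) (k : ℕ) :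
    v ((∏ i ∈ Finset.range s, (Polynomial.X - Polynomial.C (w i))).coeff k) ≤ h ^ s := by
  induction s generalizing k with
  | zero =>
    rw [Finset.prod_range_zero, Polynomial.coeff_one, pow_zero]
    split_ifs
    · rw [map_one]
    · rw [map_zero]
      exact zero_le_one
  | succ s ih =>
    have ih' := ih (fun i hi => hw i (by omega))
    rw [Finset.prod_range_succ, mul_sub, Polynomial.coeff_sub, Polynomial.coeff_mul_C]
    refine (Valuation.map_sub v _ _).trans (max_le ?_ ?_)
    · rcases k with _ | k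
      · rw [Polynomial.coeff_mul_X_zero, map_zero]
        exact zero_le'
      · rw [Polynomial.coeff_mul_X]
        exact (ih' k).trans (pow_le_pow_right₀ h1 (Nat.le_succ s))
    · rw [map_mul, pow_succ]
      exact mul_le_mul' (ih' k) (hw s (Nat.lt_succ_self s))

/-- **The recurrences** of the sequence, and the size of its data. -/
theorem fam_bd {l d : ℕ} {p : Fin n → Polynomial ℂ} (hp : ∀ j, (p j).natDegree ≤ d) (hl : l ≤ d)
    {Γ : Type} [LinearOrderedCommGroupWithZero Γ] (v : Valuation (RatFunc ℂ) Γ)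
    (hc : ∀ c : ℂ, v (algebraMap ℂ (RatFunc ℂ) c) ≤ 1) {h : Γ} (hX : v RatFunc.X ≤ h)
    (hX' : v RatFunc.X⁻¹ ≤ h) (M : ℕ) : BdSeq v (h ^ (d * (d + 1))) (d + 1) 0 M (fam l p) := by
  have h1 : 1 ≤ h := by
    by_contra hcon
    push Not at hcon
    have h2 : v (RatFunc.X : RatFunc ℂ) * v RatFunc.X⁻¹ = 1 := by
      rw [← map_mul, mul_inv_cancel₀ RatFunc_X_ne, map_one]
    have h3 : (1 : Γ) ≤ h * h := by
      rw [← h2]
      exact mul_le_mul' hX hX'
    have h4 : h * h ≤ 1 * h := mul_le_mul' hcon.le le_rfl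
    rw [one_mul] at h4
    exact absurd (h3.trans h4) (not_le.2 hcon)
  let w : ℕ → RatFunc ℂ := fun i => RatFunc.X ^ i / RatFunc.X ^ l
  have hw : ∀ i < d + 1, v (w i) ≤ h ^ d := by
    intro i hi
    rcases le_total l i with hli | hli
    · have h2 : w i = RatFunc.X ^ (i - l) := by
        change RatFunc.X ^ i / RatFunc.X ^ l = _
        rw [div_eq_iff (pow_ne_zero _ RatFunc_X_ne), ← pow_add]
        congr 1
        omega
      rw [h2, map_pow]
      exact (pow_le_pow_left' hX _).trans (pow_le_pow_right₀ h1 (by omega))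
    · have h2 : w i = RatFunc.X⁻¹ ^ (l - i) := by
        change RatFunc.X ^ i / RatFunc.X ^ l = _
        rw [div_eq_iff (pow_ne_zero _ RatFunc_X_ne), inv_pow,
          eq_inv_mul_iff_mul_eq₀ (pow_ne_zero _ RatFunc_X_ne), ← pow_add]
        congr 1
        omega
      rw [h2, map_pow]
      exact (pow_le_pow_left' hX' _).trans (pow_le_pow_right₀ h1 (by omega))
  refine ⟨⟨fun m => algebraMap ℂ (RatFunc ℂ) m, 1, 1, fun m => ?_, fun i j hij _ h0 => ?_,
    fun m _ => hc _, fun j => ?_⟩, fun i hi j => ?_⟩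
  · push_cast
    ring
  · exact hij.ne (Nat.cast_injective (R := ℂ) ((algebraMap ℂ (RatFunc ℂ)).injective h0))
  · refine ⟨fun k => Polynomial.C (-(∏ i ∈ Finset.range (d + 1),
      (Polynomial.X - Polynomial.C (w i))).coeff k), 0, fun k => ⟨?_, fun i => ?_⟩,
      ⟨?_, fun i => ?_⟩, fun m _ => ?_⟩
    · rw [Polynomial.natDegree_C]
    · rw [Polynomial.coeff_C]
      split_ifs
      · rw [Valuation.map_neg, pow_mul]
        exact coeff_bd (one_le_pow₀ h1) (d + 1) w hw k
      · rw [map_zero]
        exact zero_le'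
    · rw [Polynomial.natDegree_zero]
    · rw [Polynomial.coeff_zero, map_zero]
      exact zero_le'
    · have h2 := geo_rec (d + 1) w (fun i => algebraMap ℂ (RatFunc ℂ) ((p j).coeff i) * w i) m
      rw [Finset.sum_range_succ] at h2
      have h3 : (∏ i ∈ Finset.range (d + 1), (Polynomial.X - Polynomial.C (w i))).coeff (d + 1) =
          1 := by
        have hm : (∏ i ∈ Finset.range (d + 1), (Polynomial.X - Polynomial.C (w i))).Monic :=
          Polynomial.monic_prod_of_monic _ _ fun i _ => Polynomial.monic_X_sub_C _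
        have hd : (∏ i ∈ Finset.range (d + 1), (Polynomial.X - Polynomial.C (w i))).natDegree =
            d + 1 := by
          rw [Polynomial.natDegree_prod_of_monic _ _ fun i _ => Polynomial.monic_X_sub_C _]
          simp
        have := hm.coeff_natDegree
        rwa [hd] at this
      rw [h3, one_mul] at h2
      rw [Polynomial.eval_zero, zero_add]
      simp only [Polynomial.eval_C, neg_mul, Finset.sum_neg_distrib, fam_sum l p hp]
      linear_combination h2
  · rw [fam_sum l p hp]
    refine Valuation.map_sum_le v fun k hk => ?_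
    have hkd := Finset.mem_range.1 hk
    rw [map_mul, map_mul, map_pow]
    calc v (algebraMap ℂ (RatFunc ℂ) ((p j).coeff k)) * v (w k) * v (w k) ^ i
        ≤ 1 * h ^ d * (h ^ d) ^ i :=
          mul_le_mul' (mul_le_mul' (hc _) (hw k hkd)) (pow_le_pow_left' (hw k hkd) i)
      _ = (h ^ d) ^ (i + 1) := by rw [one_mul, pow_succ']
      _ ≤ (h ^ d) ^ (d + 1) := pow_le_pow_right₀ (one_le_pow₀ h1) (by omega)
      _ = h ^ (d * (d + 1)) := (pow_mul _ _ _).symm

theorem fam_laur {l d : ℕ} {p : Fin n → Polynomial ℂ} (hp : ∀ j, (p j).natDegree ≤ d)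
    (m : ℕ) (j : Fin n) : LaurLe ((m + 1) * (l + d)) (fam l p m j) := by
  refine ⟨Polynomial.expand ℂ (m + 1) (p j) * Polynomial.X ^ ((m + 1) * d), ?_, ?_⟩
  · refine Polynomial.natDegree_mul_le.trans ?_
    rw [Polynomial.natDegree_expand, Polynomial.natDegree_X_pow]
    have h1 := hp j
    nlinarith
  · unfold fam
    rw [map_pow, exm_X, map_mul, map_pow, RatFunc.algebraMap_X, ← exm_apply, ← pow_mul]
    have h2 := RatFunc_X_ne
    field_simp
    ring

/-- **Unbounded degrees.** -/
theorem fam_unbounded {l : ℕ} {p : Fin n → Polynomial ℂ} (h : ∃ u, u ≠ 0 ∧ gm l p u ≠ gm l p 1)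
    (K : ℕ) : ∃ m j, ¬ LaurLe K (fam l p m j) := by
  obtain ⟨u, hu, hne⟩ := h
  obtain ⟨j, i, hil, hi⟩ : ∃ j i, i ≠ l ∧ (p j).coeff i ≠ 0 := by
    by_contra hcon
    push Not at hcon
    apply hne
    have h1 : ∀ j, p j = Polynomial.C ((p j).coeff l) * Polynomial.X ^ l := by
      intro j
      ext i
      rw [Polynomial.coeff_C_mul, Polynomial.coeff_X_pow]
      split_ifs with h2
      · rw [h2, mul_one]
      · rw [hcon j i h2, mul_zero]
    funext j
    change (p j).eval u / u ^ l = (p j).eval 1 / 1 ^ l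
    rw [h1 j]
    simp only [Polynomial.eval_mul, Polynomial.eval_C, Polynomial.eval_pow, Polynomial.eval_X]
    rw [mul_div_cancel_right₀ _ (pow_ne_zero _ hu), one_pow, mul_one, div_one]
  refine ⟨K, j, fun ⟨P, hP, he⟩ => hi ?_⟩
  unfold fam at he
  have h2 := RatFunc_X_ne
  rw [map_pow, exm_X, ← pow_mul, div_mul_eq_mul_div, div_eq_iff (pow_ne_zero _ h2), exm_apply,
    ← RatFunc.algebraMap_X, ← map_pow, ← map_pow, ← map_mul, ← map_mul] at he
  have h3 := RatFunc.algebraMap_injective ℂ he
  have h4 := congrArg (fun Q => Polynomial.coeff Q (i * (K + 1) + K)) h3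
  simp only [Polynomial.coeff_mul_X_pow, Polynomial.coeff_expand_mul (Nat.succ_pos K)] at h4
  rw [h4, Polynomial.coeff_mul_X_pow']
  split_ifs with h5
  · apply Polynomial.coeff_eq_zero_of_natDegree_lt
    have h6 : l < i := by
      by_contra h7
      have h8 : i + 1 ≤ l := by omega
      nlinarith
    have h8 : l + 1 ≤ i := h6
    have h9 : (K + 1) * l + 2 * K + 1 ≤ i * (K + 1) + K := by nlinarith
    omega
  · rfl

/-- **The converse**: if there is an image of `G_m`, there is a recurrent sequence of morphisms from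
`G_m` with unbounded degrees. -/
theorem exists_fam {S : Set (MvPolynomial (Fin n) ℂ)} {G : MvPolynomial (Fin n) ℂ} {d : ℕ}
    (h : ¬ GmAff S G d) : ∃ x : ℕ → Fin n → RatFunc ℂ,
      (∀ m, (∀ F ∈ S, aeval (x m) F = 0) ∧ aeval (x m) G ≠ 0) ∧
      (∀ M, MonSeq (d + 1) 0 M x) ∧
      (∀ (Γ : Type) [LinearOrderedCommGroupWithZero Γ] (v : Valuation (RatFunc ℂ) Γ) (h : Γ),
        (∀ c : ℂ, v (algebraMap ℂ (RatFunc ℂ) c) ≤ 1) → v RatFunc.X ≤ h → v RatFunc.X⁻¹ ≤ h →
          ∀ M, BdSeq v (h ^ (d * (d + 1))) (d + 1) 0 M x) ∧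
      (∀ m j, ∃ K, LaurLe K (x m j)) ∧ ∀ K, ∃ m j, ¬ LaurLe K (x m j) := by
  unfold GmAff at h
  push Not at h
  obtain ⟨l, p, hl, hp, h1, h2, u2, hu2, hG⟩ := h
  refine ⟨fam l p, fun m => ⟨fun F hF => ?_, fun h0 => ?_⟩, fun M => ?_,
    fun Γ _ v h hc hX hX' M => fam_bd hp hl v hc hX hX' M, fun m j => ⟨_, fam_laur hp m j⟩,
    fam_unbounded h2⟩
  · rw [fam_zero, pc_zero l p (homog_homog F)]
    intro u hu
    have h3 := ev_homog F (gm l p u)
    rw [h1 u hu F hF] at h3
    exact h3
  · rw [fam_zero, pc_zero l p (homog_homog G)] at h0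
    apply hG
    have h3 := ev_homog G (gm l p u2)
    rw [← h3]
    exact h0 u2 hu2
  · classical
    let v : Valuation (RatFunc ℂ) (WithZero (Multiplicative ℤ)) := 1
    have hv : ∀ c : RatFunc ℂ, v c ≤ 1 := fun c => Valuation.one_apply_le_one c
    exact (fam_bd (h := 1) hp hl v (fun c => hv _) (hv _) (hv _) M).monSeq

end Pool.Agent.Q309.AP
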