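import Pool.Agent.Q309.AP.Main

/-!
Affine varieties: bounds for the number of different points in sequences given by monic linear
recurrences; the converse, and conditions on morphisms from `G_m`.
-/

set_option autoImplicit false

namespace Pool.Agent.Q309.AP

open MvPolynomial Filter Topology
open Pool.Agent.Q1.SL
open Pool.Agent.TH143.HE (gm homog homog_homog eval_homog)

variable {n : ℕ}

theorem aeval_homog {L : Type} [Field L] [Algebra ℂ L] (F : MvPolynomial (Fin n) ℂ)
    (x : Fin n → L) : aeval (pj x) (homog F) = aeval x F := by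
  unfold homog
  rw [map_sum]
  have h1 : ∀ e ∈ Finset.range (F.totalDegree + 1),
      aeval (pj x) (X 0 ^ (F.totalDegree - e) * rename Fin.succ (homogeneousComponent e F)) =
        aeval x (homogeneousComponent e F) := by
    intro e _
    rw [map_mul, map_pow, aeval_X, aeval_rename]
    have h2 : pj x 0 = 1 := rfl
    rw [h2, one_pow, one_mul]
    rfl
  rw [Finset.sum_congr rfl h1, ← map_sum, sum_homogeneousComponent]

theorem ev_homog (F : MvPolynomial (Fin n) ℂ) (x : Fin n → ℂ) :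
    eval (pj x) (homog F) = eval x F := by
  rw [← aeval_ev, ← aeval_ev]
  exact aeval_homog F x

/-- All nonconstant morphisms `u ↦ p(u) / u ^ l` from `G_m` to the affine variety `X` of `S`, with
polynomials `p` of degree at most `d` and `l ≤ d`, have their image in `G = 0`. -/
def GmAff (S : Set (MvPolynomial (Fin n) ℂ)) (G : MvPolynomial (Fin n) ℂ) (d : ℕ) : Prop :=
  ∀ (l : ℕ) (p : Fin n → Polynomial ℂ), l ≤ d → (∀ j, (p j).natDegree ≤ d) →
    (∀ u, u ≠ 0 → ∀ F ∈ S, eval (gm l p u) F = 0) → (∃ u, u ≠ 0 ∧ gm l p u ≠ gm l p 1) →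
      ∀ u, u ≠ 0 → eval (gm l p u) G = 0

/-- **Affine varieties over all extensions of `ℂ`.** -/
theorem aff_uniform (n D r e : ℕ) : ∃ N : ℕ, ∀ S : Set (MvPolynomial (Fin n) ℂ),
    (∀ F ∈ S, F.totalDegree ≤ D) → ∀ G : MvPolynomial (Fin n) ℂ, G.totalDegree ≤ D →
      GmAff S G N → ∀ (L : Type) [Field L] [Algebra ℂ L] (M : ℕ) (x : ℕ → Fin n → L),
        MonSeq r e M x → (∀ m ≤ M, (∀ F ∈ S, aeval (x m) F = 0) ∧ aeval (x m) G ≠ 0) →
          ∃ I : Finset ℕ, I.card ≤ N ∧ ∀ m ≤ M, ∃ i ∈ I, i ≤ m ∧ x i = x m := by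
  obtain ⟨N, hN⟩ := ext_uniform n D r e
  refine ⟨N, fun S hS G hG hgm L _ _ M x hx hX => ?_⟩
  refine hN (homog '' S) ?_ (homog G) ⟨_, hG, homog_homog G⟩ ?_ L M x hx fun m hm => ⟨?_, ?_⟩
  · rintro _ ⟨F, hF, rfl⟩
    exact ⟨_, hS F hF, homog_homog F⟩
  · intro l p hl hp h1 h2 u hu
    rw [ev_homog]
    refine hgm l p hl hp (fun u hu F hF => ?_) h2 u hu
    rw [← ev_homog]
    exact h1 u hu _ ⟨F, hF, rfl⟩
  · rintro _ ⟨F, hF, rfl⟩
    rw [aeval_homog]
    exact (hX m hm).1 F hF
  · rw [aeval_homog]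
    exact (hX m hm).2

/-- a function on `G_m` with infinitely many equal values along a geometric progression -/
theorem const_of_geom {l : ℕ} {P : Polynomial ℂ} {k : ℕ} (hk : 0 < k)
    (h : ∀ u : ℂ, u ≠ 0 → P.eval (2 ^ k * u) / (2 ^ k * u) ^ l = P.eval u / u ^ l) (u v : ℂ)
    (hu : u ≠ 0) (hv : v ≠ 0) : P.eval u / u ^ l = P.eval v / v ^ l := by
  have h2 : ∀ s : ℕ, P.eval (2 ^ (k * s) * v) / (2 ^ (k * s) * v) ^ l = P.eval v / v ^ l := by
    intro s
    induction s with
    | zero => simp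
    | succ s ih =>
      rw [← ih, ← h (2 ^ (k * s) * v) (mul_ne_zero (pow_ne_zero _ two_ne_zero) hv)]
      have h3 : (2 : ℂ) ^ (k * (s + 1)) * v = 2 ^ k * (2 ^ (k * s) * v) := by
        rw [← mul_assoc, ← pow_add]
        congr 2
        ring
      rw [h3]
  have h4 : P = Polynomial.C (P.eval v / v ^ l) * Polynomial.X ^ l := by
    refine Polynomial.eq_of_infinite_eval_eq _ _ (Set.Infinite.mono ?_
      (Set.infinite_range_of_injective (f := fun s : ℕ => (2 : ℂ) ^ (k * s) * v) ?_))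
    · rintro _ ⟨s, rfl⟩
      change Polynomial.eval _ _ = Polynomial.eval _ _
      have h5 : (2 : ℂ) ^ (k * s) * v ≠ 0 := mul_ne_zero (pow_ne_zero _ two_ne_zero) hv
      rw [Polynomial.eval_mul, Polynomial.eval_C, Polynomial.eval_pow, Polynomial.eval_X, ← h2 s,
        div_mul_cancel₀ _ (pow_ne_zero _ h5)]
    · intro a b hab
      have h5 : (2 : ℂ) ^ (k * a) = 2 ^ (k * b) := mul_right_cancel₀ hv hab
      have h6 : ((2 ^ (k * a) : ℕ) : ℂ) = ((2 ^ (k * b) : ℕ) : ℂ) := by
        push_cast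
        exact h5
      have h7 := Nat.pow_right_injective (le_refl 2) (by exact_mod_cast h6)
      exact Nat.eq_of_mul_eq_mul_left hk h7
  have h5 : P.eval u = P.eval v / v ^ l * u ^ l := by
    conv_lhs => rw [h4]
    rw [Polynomial.eval_mul, Polynomial.eval_C, Polynomial.eval_pow, Polynomial.eval_X]
  rw [h5, mul_div_cancel_right₀ _ (pow_ne_zero _ hu)]

/-- **The converse**: points on images of `G_m`. -/
theorem runs_of_gm {S : Set (MvPolynomial (Fin n) ℂ)} {G : MvPolynomial (Fin n) ℂ} {d : ℕ}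
    (h : ¬ GmAff S G d) (M : ℕ) : ∃ x : ℕ → Fin n → ℂ, MonSeq (d + 1) 0 M x ∧
      (∀ i j, i < j → j ≤ M → x i ≠ x j) ∧
        ∀ m ≤ M, (∀ F ∈ S, eval (x m) F = 0) ∧ eval (x m) G ≠ 0 := by
  classical
  unfold GmAff at h
  push Not at h
  obtain ⟨l, p, hl, hp, h1, ⟨u1, hu1, hne⟩, u2, hu2, hG⟩ := h
  obtain ⟨j0, hj0⟩ := Function.ne_iff.1 hne
  -- the conditions for the starting point
  let Q : ℕ → ℕ → Polynomial ℂ := fun a b =>
    (p j0).comp (Polynomial.C (2 ^ a) * Polynomial.X) * (Polynomial.C (2 ^ b) * Polynomial.X) ^ l -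
      (p j0).comp (Polynomial.C (2 ^ b) * Polynomial.X) *
        (Polynomial.C (2 ^ a) * Polynomial.X) ^ l
  have hQe : ∀ a b (c : ℂ), (Q a b).eval c = (p j0).eval (2 ^ a * c) * (2 ^ b * c) ^ l -
      (p j0).eval (2 ^ b * c) * (2 ^ a * c) ^ l := by
    intro a b c
    simp only [Q, Polynomial.eval_sub, Polynomial.eval_mul, Polynomial.eval_comp,
      Polynomial.eval_pow, Polynomial.eval_C, Polynomial.eval_X]
  have hQ0 : ∀ a b, a < b → Q a b ≠ 0 := by
    intro a b hab h0
    apply hj0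
    refine const_of_geom (k := b - a) (by omega) (fun u hu => ?_) u1 1 hu1 one_ne_zero
    have h2a : (2 : ℂ) ^ a ≠ 0 := pow_ne_zero _ two_ne_zero
    have h2 := hQe a b (u / 2 ^ a)
    rw [h0, Polynomial.eval_zero] at h2
    have h3 : (2 : ℂ) ^ a * (u / 2 ^ a) = u := mul_div_cancel₀ _ h2a
    have h4 : (2 : ℂ) ^ b * (u / 2 ^ a) = 2 ^ (b - a) * u := by
      have h5 : (2 : ℂ) ^ b = 2 ^ a * 2 ^ (b - a) := by
        rw [← pow_add]
        congr 1
        omega
      rw [h5]
      field_simp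
    rw [h3, h4] at h2
    have h6 : (2 : ℂ) ^ (b - a) * u ≠ 0 := mul_ne_zero (pow_ne_zero _ two_ne_zero) hu
    rw [div_eq_div_iff (pow_ne_zero _ h6) (pow_ne_zero _ hu)]
    linear_combination h2
  have hHG : aeval (pc l p) (homog G) ≠ 0 := by
    intro h0
    apply hG
    rw [← ev_homog]
    exact (pc_zero l p (homog_homog G)).1 h0 u2 hu2
  let H : ℕ → Polynomial ℂ := fun m =>
    (aeval (pc l p) (homog G)).comp (Polynomial.C (2 ^ m) * Polynomial.X)
  have hHe : ∀ m (c : ℂ), (H m).eval c = (aeval (pc l p) (homog G)).eval (2 ^ m * c) := by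
    intro m c
    simp only [H, Polynomial.eval_comp, Polynomial.eval_mul, Polynomial.eval_C, Polynomial.eval_X]
  have hH0 : ∀ m, H m ≠ 0 := by
    intro m h0
    apply hHG
    apply Polynomial.funext
    intro z
    have h2 := hHe m (z / 2 ^ m)
    rw [h0, Polynomial.eval_zero, mul_div_cancel₀ _ (pow_ne_zero _ two_ne_zero)] at h2
    rw [← h2, Polynomial.eval_zero]
  obtain ⟨c, hc⟩ : ∃ c : ℂ, (Polynomial.X * (∏ m ∈ Finset.range (M + 1), H m) *
      ∏ a ∈ Finset.range (M + 1), ∏ b ∈ Finset.range (M + 1),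
        if a < b then Q a b else 1).eval c ≠ 0 := by
    by_contra hcon
    push Not at hcon
    have h2 : (Polynomial.X * (∏ m ∈ Finset.range (M + 1), H m) *
      ∏ a ∈ Finset.range (M + 1), ∏ b ∈ Finset.range (M + 1),
        if a < b then Q a b else 1) = 0 := Polynomial.funext fun c => by
          rw [hcon c, Polynomial.eval_zero]
    refine mul_ne_zero (mul_ne_zero Polynomial.X_ne_zero (Finset.prod_ne_zero_iff.2
      fun m _ => hH0 m)) (Finset.prod_ne_zero_iff.2 fun a _ => Finset.prod_ne_zero_iff.2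
        fun b _ => ?_) h2
    split_ifs with hab
    · exact hQ0 a b hab
    · exact one_ne_zero
  rw [Polynomial.eval_mul, Polynomial.eval_mul, Polynomial.eval_X] at hc
  have hc0 : c ≠ 0 := fun h0 => hc (by rw [h0, zero_mul, zero_mul])
  have hcH : ∀ m ≤ M, (H m).eval c ≠ 0 := by
    intro m hm h0
    apply hc
    rw [Polynomial.eval_prod, Finset.prod_eq_zero (Finset.mem_range.2 (by omega : m < M + 1)) h0,
      mul_zero, zero_mul]
  have hcQ : ∀ a b, a < b → b ≤ M → (Q a b).eval c ≠ 0 := by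
    intro a b hab hb h0
    apply hc
    have h2 : (∏ a ∈ Finset.range (M + 1), ∏ b ∈ Finset.range (M + 1),
        if a < b then Q a b else 1).eval c = 0 := by
      rw [Polynomial.eval_prod]
      refine Finset.prod_eq_zero (Finset.mem_range.2 (by omega : a < M + 1)) ?_
      rw [Polynomial.eval_prod]
      refine Finset.prod_eq_zero (Finset.mem_range.2 (by omega : b < M + 1)) ?_
      rw [if_pos hab, h0]
    rw [h2, mul_zero]
  have hz : ∀ m : ℕ, (2 : ℂ) ^ m * c ≠ 0 := fun m => mul_ne_zero (pow_ne_zero _ two_ne_zero) hc0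
  refine ⟨fun m => gm l p (2 ^ m * c), ⟨⟨fun m => m, 1, 1, fun m => by push_cast; ring,
    fun i j hij _ h0 => hij.ne (Nat.cast_injective (R := ℂ) h0), fun j => ?_⟩⟩, fun a b hab hb h0 => ?_,
    fun m hm => ⟨fun F hF => h1 _ (hz m) F hF, fun h0 => ?_⟩⟩
  · -- the recurrence
    let χ : Polynomial ℂ := ∏ i ∈ Finset.range (d + 1), (Polynomial.X -
      Polynomial.C ((2 : ℂ) ^ i / 2 ^ l))
    have hχm : χ.Monic := Polynomial.monic_prod_of_monic _ _ fun i _ => Polynomial.monic_X_sub_C _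
    have hχd : χ.natDegree = d + 1 := by
      rw [Polynomial.natDegree_prod_of_monic _ _ fun i _ => Polynomial.monic_X_sub_C _]
      simp
    have hχ0 : ∀ i ≤ d, χ.eval ((2 : ℂ) ^ i / 2 ^ l) = 0 := by
      intro i hi
      rw [Polynomial.eval_prod]
      refine Finset.prod_eq_zero (Finset.mem_range.2 (by omega : i < d + 1)) ?_
      rw [Polynomial.eval_sub, Polynomial.eval_X, Polynomial.eval_C, sub_self]
    have hval : ∀ m, gm l p (2 ^ m * c) j = ∑ i ∈ Finset.range (d + 1),
        ((p j).coeff i * c ^ i / c ^ l) * ((2 : ℂ) ^ i / 2 ^ l) ^ m := by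
      intro m
      have h2 : gm l p (2 ^ m * c) j = (p j).eval (2 ^ m * c) / (2 ^ m * c) ^ l := rfl
      rw [h2, Polynomial.eval_eq_sum_range' (n := d + 1) (by have := hp j; omega),
        Finset.sum_div]
      refine Finset.sum_congr rfl fun i _ => ?_
      rw [mul_pow, mul_pow, div_pow, ← pow_mul, ← pow_mul, ← pow_mul, ← pow_mul, mul_comm m i,
        mul_comm m l]
      have h3 : (2 : ℂ) ^ (l * m) ≠ 0 := pow_ne_zero _ two_ne_zero
      field_simp
    refine ⟨fun k => Polynomial.C (-χ.coeff k), 0, fun k => ?_, ?_, fun m _ => ?_⟩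
    · rw [Polynomial.natDegree_C]
    · rw [Polynomial.natDegree_zero]
    · have h2 : ∑ k ∈ Finset.range (d + 1 + 1), χ.coeff k * gm l p (2 ^ (m + k) * c) j = 0 := by
        simp only [hval]
        have h3 : ∀ k ∈ Finset.range (d + 1 + 1), χ.coeff k * ∑ i ∈ Finset.range (d + 1),
            ((p j).coeff i * c ^ i / c ^ l) * ((2 : ℂ) ^ i / 2 ^ l) ^ (m + k) =
            ∑ i ∈ Finset.range (d + 1), ((p j).coeff i * c ^ i / c ^ l) *
              ((2 : ℂ) ^ i / 2 ^ l) ^ m * (χ.coeff k * ((2 : ℂ) ^ i / 2 ^ l) ^ k) := by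
          intro k _
          rw [Finset.mul_sum]
          refine Finset.sum_congr rfl fun i _ => ?_
          rw [pow_add]
          ring
        rw [Finset.sum_congr rfl h3, Finset.sum_comm]
        refine Finset.sum_eq_zero fun i hi => ?_
        rw [← Finset.mul_sum, ← Polynomial.eval_eq_sum_range' (by rw [hχd]; omega),
          hχ0 i (by have := Finset.mem_range.1 hi; omega), mul_zero]
      rw [Finset.sum_range_succ] at h2
      have h3 : χ.coeff (d + 1) = 1 := by
        have := hχm.coeff_natDegree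
        rwa [hχd] at this
      rw [h3, one_mul] at h2
      rw [Polynomial.eval_zero, zero_add]
      simp only [Polynomial.eval_C, neg_mul, Finset.sum_neg_distrib]
      linear_combination h2
  · apply hcQ a b hab hb
    rw [hQe]
    have h2 : (p j0).eval (2 ^ a * c) / (2 ^ a * c) ^ l =
        (p j0).eval (2 ^ b * c) / (2 ^ b * c) ^ l := congrFun h0 j0
    rw [div_eq_div_iff (pow_ne_zero _ (hz a)) (pow_ne_zero _ (hz b))] at h2
    linear_combination h2
  · apply hcH m hm
    rw [hHe, pc_form l p (homog_homog G) (hz m)]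
    have h2 : eval (Fin.cons 1 (gm l p (2 ^ m * c)) : Fin (n + 1) → ℂ) (homog G) =
        eval (gm l p (2 ^ m * c)) G := ev_homog G _
    rw [h2, h0, mul_zero]

/-- **Brody hyperbolic varieties** contain no images of `G_m`. -/
theorem gmAff_of_brody {S : Set (MvPolynomial (Fin n) ℂ)}
    (h : ∀ f : ℂ → Fin n → ℂ, (∀ j, Differentiable ℂ fun z => f z j) →
      (∀ z, ∀ F ∈ S, eval (f z) F = 0) → ∀ z w, f z = f w) (G : MvPolynomial (Fin n) ℂ) (d : ℕ) :
    GmAff S G d := by
  intro l p _ _ h1 ⟨u1, hu1, hne⟩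
  exfalso
  have h2 := h (fun z => gm l p (Complex.exp z)) (fun j => ?_)
    (fun z F hF => h1 _ (Complex.exp_ne_zero z) F hF) (Complex.log u1) 0
  · rw [Complex.exp_log hu1, Complex.exp_zero] at h2
    exact hne h2
  · exact ((p j).differentiable.comp Complex.differentiable_exp).div
      (Complex.differentiable_exp.pow l) fun z => pow_ne_zero _ (Complex.exp_ne_zero z)

/-- **Varieties with finitely many pointed morphisms** from `G_m` contain no images of `G_m`. -/
theorem gmAff_of_pointed {S : Set (MvPolynomial (Fin n) ℂ)}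
    (h : ∀ y : Fin n → ℂ, {g : {u : ℂ // u ≠ 0} → Fin n → ℂ |
      (∃ (l : ℕ) (p : Fin n → Polynomial ℂ), ∀ u, g u = gm l p u) ∧
        (∀ u, ∀ F ∈ S, eval (g u) F = 0) ∧ g ⟨1, one_ne_zero⟩ = y}.Finite)
    (G : MvPolynomial (Fin n) ℂ) (d : ℕ) : GmAff S G d := by
  intro l p _ _ h1 ⟨u1, hu1, hne⟩
  exfalso
  have hfin := h (gm l p 1)
  let g : ℕ → {u : ℂ // u ≠ 0} → Fin n → ℂ := fun k u => gm l p ((u : ℂ) ^ (k + 1))
  have hg : ∀ k, g k ∈ {g : {u : ℂ // u ≠ 0} → Fin n → ℂ |
      (∃ (l : ℕ) (p : Fin n → Polynomial ℂ), ∀ u, g u = gm l p u) ∧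
        (∀ u, ∀ F ∈ S, eval (g u) F = 0) ∧ g ⟨1, one_ne_zero⟩ = gm l p 1} := by
    intro k
    refine ⟨⟨(k + 1) * l, fun j => (p j).comp (Polynomial.X ^ (k + 1)), fun u => ?_⟩,
      fun u F hF => h1 _ (pow_ne_zero _ u.2) F hF, ?_⟩
    · funext j
      change (p j).eval ((u : ℂ) ^ (k + 1)) / ((u : ℂ) ^ (k + 1)) ^ l =
        ((p j).comp (Polynomial.X ^ (k + 1))).eval (u : ℂ) / (u : ℂ) ^ ((k + 1) * l)
      rw [Polynomial.eval_comp, Polynomial.eval_pow, Polynomial.eval_X, pow_mul]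
    · change gm l p ((1 : ℂ) ^ (k + 1)) = _
      rw [one_pow]
  obtain ⟨a, -, b, -, hab, heq⟩ := Set.infinite_univ.exists_ne_map_eq_of_mapsTo
    (f := g) (t := _) (fun k _ => hg k) hfin
  -- two different powers give the same map
  have key : ∀ a b : ℕ, a < b → g a = g b → False := by
    intro a b hab heq
    set ρ : ℂ := (((((a + 1 : ℕ) : ℝ) / ((b + 1 : ℕ) : ℝ)) : ℝ) : ℂ) with hρ
    have hψ : ∀ z : ℂ, gm l p (Complex.exp z) = gm l p (Complex.exp (ρ * z)) := by
      intro z
      have hb : ((b + 1 : ℕ) : ℂ) ≠ 0 := by exact_mod_cast Nat.succ_ne_zero b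
      have h3 := congrFun heq ⟨Complex.exp (z / ((b + 1 : ℕ) : ℂ)), Complex.exp_ne_zero _⟩
      change gm l p (Complex.exp (z / ((b + 1 : ℕ) : ℂ)) ^ (a + 1)) =
        gm l p (Complex.exp (z / ((b + 1 : ℕ) : ℂ)) ^ (b + 1)) at h3
      rw [← Complex.exp_nat_mul, ← Complex.exp_nat_mul] at h3
      have h4 : ((b + 1 : ℕ) : ℂ) * (z / ((b + 1 : ℕ) : ℂ)) = z := mul_div_cancel₀ _ hb
      have h5 : ((a + 1 : ℕ) : ℂ) * (z / ((b + 1 : ℕ) : ℂ)) = ρ * z := by
        rw [hρ]
        push_cast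
        ring
      rw [h4, h5] at h3
      exact h3.symm
    have hψs : ∀ (s : ℕ) (z : ℂ), gm l p (Complex.exp z) = gm l p (Complex.exp (ρ ^ s * z)) := by
      intro s z
      induction s with
      | zero => rw [pow_zero, one_mul]
      | succ s ih =>
        rw [ih, hψ, pow_succ]
        congr 2
        ring
    have hρ1 : ‖ρ‖ < 1 := by
      rw [hρ, Complex.norm_real, Real.norm_of_nonneg (by positivity),
        div_lt_one (by positivity)]
      exact_mod_cast Nat.succ_lt_succ hab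
    apply hne
    have hcont : ∀ j, Continuous fun z => gm l p (Complex.exp z) j := by
      intro j
      exact (((p j).differentiable.comp Complex.differentiable_exp).div
        (Complex.differentiable_exp.pow l)
        fun z => pow_ne_zero _ (Complex.exp_ne_zero z)).continuous
    funext j
    have h3 : Tendsto (fun s : ℕ => ρ ^ s * Complex.log u1) atTop (𝓝 (0 * Complex.log u1)) :=
      (tendsto_pow_atTop_nhds_zero_of_norm_lt_one hρ1).mul_const _
    rw [zero_mul] at h3
    have h4 := ((hcont j).tendsto 0).comp h3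
    have h5 : ((fun z => gm l p (Complex.exp z) j) ∘ fun s : ℕ => ρ ^ s * Complex.log u1) =
        fun _ => gm l p u1 j := by
      funext s
      change gm l p (Complex.exp (ρ ^ s * Complex.log u1)) j = _
      rw [← hψs s, Complex.exp_log hu1]
    rw [h5, Complex.exp_zero] at h4
    exact tendsto_nhds_unique tendsto_const_nhds h4
  rcases lt_or_gt_of_ne hab with h3 | h3
  · exact key a b h3 heq
  · exact key b a h3 heq.symm

end Pool.Agent.Q309.AP
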