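import Pool.Agent.TH143.LG.Conv
import Pool.Agent.Q309.TP.Win
import Pool.Agent.Q309.TP.Clo

/-!
Affine varieties: sequences of points given by monic linear recurrences with polynomial
coefficients, and morphisms from `G_m`.
-/

set_option autoImplicit false

namespace Pool.Agent.Q309.AP

open MvPolynomial Filter
open Pool.Agent.TH143.DE (ratB ratB_field ratB_tr)
open Pool.Agent.TH143.GE (ratB_fg)
open Pool.Agent.TH143.HE
open Pool.Agent.TH143.LG
open Pool.Agent.TH143.TW (aeval_seq)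
open Pool.Agent.Q1.SL

variable {n : ℕ}

/-- the ring of the polynomials in the sequence `t` -/
theorem int_poly {t : ℕ → ℂ} {α β : ℂ} (ht : ∀ m, t (m + 1) = α * t m + β)
    (hinj : Function.Injective t) :
    IntRing (Algebra.adjoin ℂ ({t} : Set (ℕ → ℂ))) (ratB t hinj) := by
  classical
  refine ⟨ratB_field hinj (Polynomial.C α * Polynomial.X + Polynomial.C β) (fun m => ?_),
    ratB_fg hinj, ratB_tr hinj, ?_, ⟨{t}, by simp⟩, ?_⟩
  · rw [Polynomial.eval_add, Polynomial.eval_mul, Polynomial.eval_C, Polynomial.eval_X,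
      Polynomial.eval_C, ht]
  · apply Algebra.adjoin_le
    rintro f rfl
    exact ⟨Polynomial.X, 1, one_ne_zero, Eventually.of_forall fun m => by
      rw [Polynomial.eval_X, Polynomial.eval_one, div_one]⟩
  · intro f hf
    induction hf using Algebra.adjoin_induction with
    | mem f hf =>
      rw [Set.mem_singleton_iff.1 hf]
      have h1 : (fun m => t (m + 1)) = algebraMap ℂ (ℕ → ℂ) α * t + algebraMap ℂ (ℕ → ℂ) β := by
        funext m
        exact ht m
      rw [h1]
      exact add_mem (mul_mem (Subalgebra.algebraMap_mem _ _)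
        (Algebra.subset_adjoin (Set.mem_singleton _))) (Subalgebra.algebraMap_mem _ _)
    | algebraMap c => exact Subalgebra.algebraMap_mem _ c
    | add f g _ _ hf hg => exact add_mem hf hg
    | mul f g _ _ hf hg => exact mul_mem hf hg

/-- a zero of a set of polynomials is a zero of the ideal -/
theorem isPt_span {J : Set (MvPolynomial (Fin n) ℂ)} {x : Fin n → ℂ}
    (h : ∀ F ∈ J, eval x F = 0) : IsPt (RingHom.id ℂ) (Ideal.span J) x := by
  have h1 : Ideal.span J ≤ RingHom.ker (eval x) := by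
    rw [Ideal.span_le]
    exact h
  intro F hF
  exact h1 hF

/-- the affine coordinates -/
noncomputable def deh (F : MvPolynomial (Fin (n + 1)) ℂ) : MvPolynomial (Fin n) ℂ :=
  aeval (Fin.cons 1 X : Fin (n + 1) → MvPolynomial (Fin n) ℂ) F

theorem eval_deh (F : MvPolynomial (Fin (n + 1)) ℂ) (x : Fin n → ℂ) :
    eval x (deh F) = eval (Fin.cons 1 x : Fin (n + 1) → ℂ) F := by
  unfold deh
  have h1 := MvPolynomial.comp_aeval_apply (f := (Fin.cons 1 X : Fin (n + 1) →
    MvPolynomial (Fin n) ℂ)) (aeval x : MvPolynomial (Fin n) ℂ →ₐ[ℂ] ℂ) F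
  rw [← aeval_ev, h1, ← aeval_ev]
  congr 1
  congr 1
  funext j
  refine Fin.cases ?_ (fun i => ?_) j
  · simp
  · simp

/-- the projective curve of a morphism from `G_m` -/
noncomputable def pc (l : ℕ) (p : Fin n → Polynomial ℂ) : Fin (n + 1) → Polynomial ℂ :=
  Fin.cons (Polynomial.X ^ l) p

theorem pc_eval (l : ℕ) (p : Fin n → Polynomial ℂ) {u : ℂ} (hu : u ≠ 0) :
    (fun j => (pc l p j).eval u) = fun j => u ^ l * (Fin.cons 1 (gm l p u) : Fin (n + 1) → ℂ) j := by
  funext j
  refine Fin.cases ?_ (fun i => ?_) j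
  · simp [pc]
  · simp only [pc, Fin.cons_succ, gm]
    rw [mul_div_cancel₀ _ (pow_ne_zero _ hu)]

theorem pc_form (l : ℕ) (p : Fin n → Polynomial ℂ) {F : MvPolynomial (Fin (n + 1)) ℂ} {d : ℕ}
    (hF : F.IsHomogeneous d) {u : ℂ} (hu : u ≠ 0) :
    (aeval (pc l p) F : Polynomial ℂ).eval u =
      (u ^ l) ^ d * eval (Fin.cons 1 (gm l p u) : Fin (n + 1) → ℂ) F := by
  rw [poly_eval, pc_eval l p hu]
  have h1 := Pool.Agent.TH143.HE.eval₂_smul_homog (RingHom.id ℂ) (u ^ l)
    (Fin.cons 1 (gm l p u) : Fin (n + 1) → ℂ) hF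
  exact h1

theorem pc_zero (l : ℕ) (p : Fin n → Polynomial ℂ) {F : MvPolynomial (Fin (n + 1)) ℂ} {d : ℕ}
    (hF : F.IsHomogeneous d) :
    aeval (pc l p) F = 0 ↔ ∀ u : ℂ, u ≠ 0 →
      eval (Fin.cons 1 (gm l p u) : Fin (n + 1) → ℂ) F = 0 := by
  constructor
  · intro h u hu
    have h1 := pc_form l p hF hu
    rw [h, Polynomial.eval_zero] at h1
    exact (mul_eq_zero.1 h1.symm).resolve_left (pow_ne_zero _ (pow_ne_zero _ hu))
  · intro h
    apply Polynomial.eq_zero_of_infinite_isRoot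
    refine Set.Infinite.mono (s := {x : ℂ | x ≠ 0}) ?_ (Set.finite_singleton (0 : ℂ)).infinite_compl
    intro u hu
    change Polynomial.eval u _ = 0
    rw [pc_form l p hF hu, h u hu, mul_zero]

theorem pc_nonC (l : ℕ) (p : Fin n → Polynomial ℂ) :
    NonC (pc l p) ↔ ∃ u, u ≠ 0 ∧ gm l p u ≠ gm l p 1 := by
  constructor
  · rintro ⟨s, t, i, j, hst⟩
    by_contra hcon
    push Not at hcon
    have hc : ∀ j, pc l p j = Polynomial.C ((Fin.cons 1 (gm l p 1) : Fin (n + 1) → ℂ) j) *
        Polynomial.X ^ l := by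
      intro j
      apply Polynomial.eq_of_infinite_eval_eq
      refine Set.Infinite.mono (s := {x : ℂ | x ≠ 0}) ?_
        (Set.finite_singleton (0 : ℂ)).infinite_compl
      intro u hu
      have h1 := congrFun (pc_eval l p hu) j
      change Polynomial.eval u _ = Polynomial.eval u _
      rw [h1, hcon u hu, Polynomial.eval_mul, Polynomial.eval_C, Polynomial.eval_pow,
        Polynomial.eval_X, mul_comm]
    apply hst
    rw [hc i, hc j]
    simp only [Polynomial.eval_mul, Polynomial.eval_C]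
    ring
  · rintro ⟨u, hu, hne⟩
    obtain ⟨j, hj⟩ := Function.ne_iff.1 hne
    refine ⟨u, 1, Fin.succ j, 0, fun h => hj ?_⟩
    have h1 := congrFun (pc_eval l p hu) (Fin.succ j)
    have h2 := congrFun (pc_eval l p hu) 0
    have h3 := congrFun (pc_eval l p one_ne_zero) (Fin.succ j)
    have h4 := congrFun (pc_eval l p one_ne_zero) 0
    simp only [Fin.cons_succ, Fin.cons_zero, one_pow, one_mul, mul_one] at h1 h2 h3 h4
    rw [h1, h2, h3, h4] at h
    apply mul_left_cancel₀ (pow_ne_zero l hu)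
    linear_combination h

/-- **The dichotomy for one sequence.** -/
theorem aff_dich {α β : ℂ} {t : ℕ → ℂ} (ht : ∀ m, t (m + 1) = α * t m + β)
    (hinj : Function.Injective t) {s : Set (MvPolynomial (Fin (n + 1)) ℂ)}
    (hs : ∀ F ∈ s, ∃ d, F.IsHomogeneous d) {G : MvPolynomial (Fin (n + 1)) ℂ}
    (hG : ∃ d, G.IsHomogeneous d) {x : ℕ → Fin n → ℂ} {r : ℕ}
    {a : Fin n → ℕ → Polynomial ℂ} {b : Fin n → Polynomial ℂ}
    (hrec : ∀ j m, x (m + r) j = (b j).eval (t m) +
      ∑ k ∈ Finset.range r, (a j k).eval (t m) * x (m + k) j)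
    (hX : ∀ m, ∀ F ∈ s, eval (Fin.cons 1 (x m) : Fin (n + 1) → ℂ) F = 0)
    (hZ : ∀ m, eval (Fin.cons 1 (x m) : Fin (n + 1) → ℂ) G ≠ 0) :
    (∃ k m0, 0 < k ∧ ∀ m, m0 ≤ m → x (m + k) = x m) ∨
      ∃ (l : ℕ) (p : Fin n → Polynomial ℂ), (∀ F ∈ s, aeval (pc l p) F = 0) ∧ NonC (pc l p) ∧
        aeval (pc l p) G ≠ 0 := by
  classical
  by_cases hgm : GmCurvesIn (RingHom.id ℂ) (Ideal.span (deh '' s))
      (Ideal.span ({deh G} : Set (MvPolynomial (Fin n) ℂ)))
  · left
    have hmem : ∀ P : Polynomial ℂ, (fun m => P.eval (t m)) ∈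
        Algebra.adjoin ℂ ({t} : Set (ℕ → ℂ)) := by
      intro P
      have h1 : (fun m => P.eval (t m)) = Polynomial.aeval t P := by
        funext m
        rw [aeval_seq]
      rw [h1]
      exact Polynomial.aeval_mem_adjoin_singleton ℂ t
    obtain ⟨k, m0, hk, h⟩ := main_aff hgm (int_poly ht hinj) (x := x)
      (fun j => ⟨r, fun k m => (a j k).eval (t m), fun m => (b j).eval (t m), fun k => hmem _,
        hmem _, Eventually.of_forall fun m => hrec j m⟩)
      (Eventually.of_forall fun m => isPt_span (by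
        rintro _ ⟨F, hF, rfl⟩
        rw [eval_deh]
        exact hX m F hF))
      (Eventually.of_forall fun m hcon => hZ m (by
        rw [← eval_deh]
        exact hcon _ (Ideal.subset_span rfl)))
    exact ⟨k, m0, hk, h⟩
  · right
    unfold GmCurvesIn at hgm
    push Not at hgm
    obtain ⟨l, p, h1, h2, u, hu, h3⟩ := hgm
    refine ⟨l, p, fun F hF => ?_, (pc_nonC l p).2 h2, fun h0 => h3 ?_⟩
    · obtain ⟨d, hd⟩ := hs F hF
      refine (pc_zero l p hd).2 fun u hu => ?_
      rw [← eval_deh]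
      exact h1 u hu _ (Ideal.subset_span ⟨F, hF, rfl⟩)
    · obtain ⟨d, hd⟩ := hG
      refine isPt_span ?_
      intro F hF
      rw [Set.mem_singleton_iff.1 hF, eval_deh]
      exact (pc_zero l p hd).1 h0 u hu

end Pool.Agent.Q309.AP
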