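import Pool.Agent.Q309.AP.Win
import Pool.Agent.Q309.TP.Main
import Pool.Agent.Q309.DF.Main

/-!
Affine varieties: bounds for the number of different points in sequences given by monic linear
recurrences.
-/

set_option autoImplicit false

namespace Pool.Agent.Q309.AP

open MvPolynomial Filter
open Pool.Agent.Q1.SL
open Pool.Agent.TH143.HE (gm)
open Pool.Agent.Q309.TP
open Pool.Agent.Q309.DF (rel_embed exists_sub)

variable {n : ℕ}

theorem ASeq.window {r e M : ℕ} {S : Set (MvPolynomial (Fin (n + 1)) ℂ)} {t : ℕ → ℂ}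
    {x : ℕ → Fin n → ℂ} (h : ASeq r e S M t x) {w d : ℕ} (hw : w + d ≤ M) :
    ASeq r e S d (fun m => t (w + m)) fun m => x (w + m) := by
  obtain ⟨α, β, haff⟩ := h.aff
  refine ⟨⟨α, β, fun m => haff (w + m)⟩, fun i j hij hj => h.inj _ _ (by omega) (by omega),
    fun j => ?_, fun m hm => h.on _ (by omega)⟩
  obtain ⟨a, b, h1, h2, h3⟩ := h.eqn j
  refine ⟨a, b, h1, h2, fun m hm => ?_⟩
  have h4 := h3 (w + m) (by omega)
  rw [← Nat.add_assoc, h4]
  congr 1
  exact Finset.sum_congr rfl fun k _ => by rw [Nat.add_assoc]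

/-- homogeneous recurrences -/
theorem ASeq.wseq {r e M : ℕ} {S : Set (MvPolynomial (Fin (n + 1)) ℂ)} {t : ℕ → ℂ}
    {x : ℕ → Fin n → ℂ} (h : ASeq r e S (M + 1) t x) :
    WSeq (r + 1) (2 * e) S M t fun m => pj (x m) := by
  classical
  obtain ⟨α, β, haff⟩ := h.aff
  refine ⟨⟨α, β, haff⟩, fun i j hij hj => h.inj _ _ hij (by omega), fun m _ h0 => ?_, fun j => ?_,
    fun m hm => h.on _ (by omega)⟩
  · have h1 := congrFun h0 0
    exact one_ne_zero h1
  · refine Fin.cases ?_ (fun j => ?_) j
    · refine ⟨fun k => if k = 0 then -1 else if k = 1 then 1 else 0, ⟨0, Nat.zero_le _, ?_⟩,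
        fun k => ?_, fun m _ => ?_⟩
      · simp
      · dsimp only
        split_ifs <;> simp
      · rw [Finset.sum_eq_add_of_mem 0 1 (Finset.mem_range.2 (by omega))
          (Finset.mem_range.2 (by omega)) zero_ne_one]
        · simp [pj]
        · rintro k _ ⟨h1, h2⟩
          simp [h1, h2]
    · obtain ⟨a, b, ha, hb, hrec⟩ := h.eqn j
      let c : ℕ → Polynomial ℂ := fun k => if k = r then 1 else if k < r then -a k else 0
      have hcr1 : c r = 1 := by simp [c]
      have hcd : ∀ k, (c k).natDegree ≤ e := by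
        intro k
        simp only [c]
        split_ifs
        · simp
        · rw [Polynomial.natDegree_neg]
          exact ha k
        · simp
      have hc : ∀ m ≤ M + 1, ∑ k ∈ Finset.range (r + 1), (c k).eval (t m) * x (m + k) j =
          b.eval (t m) := by
        intro m hm
        rw [Finset.sum_range_succ]
        have h1 : ∑ k ∈ Finset.range r, (c k).eval (t m) * x (m + k) j =
            -∑ k ∈ Finset.range r, (a k).eval (t m) * x (m + k) j := by
          rw [← Finset.sum_neg_distrib]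
          refine Finset.sum_congr rfl fun k hk => ?_
          have hk' := Finset.mem_range.1 hk
          simp only [c]
          rw [if_neg (by omega), if_pos hk', Polynomial.eval_neg, neg_mul]
        rw [h1, hcr1, Polynomial.eval_one, one_mul, hrec m hm]
        ring
      by_cases hb0 : b = 0
      · refine ⟨c, ⟨r, by omega, ?_⟩, fun k => (hcd k).trans (by omega), fun m hm => ?_⟩
        · rw [hcr1]
          exact one_ne_zero
        · rw [Finset.sum_range_succ]
          have h1 : c (r + 1) = 0 := by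
            simp only [c]
            rw [if_neg (by omega), if_neg (by omega)]
          rw [h1, Polynomial.eval_zero, zero_mul, add_zero]
          have h2 := hc m (by omega)
          rw [hb0, Polynomial.eval_zero] at h2
          exact h2
      · refine ⟨fun k => sb α β b * c k - (if k = 0 then 0 else b * sb α β (c (k - 1))),
          ⟨r + 1, le_rfl, ?_⟩, fun k => ?_, fun m hm => ?_⟩
        · have h1 : c (r + 1) = 0 := by
            simp only [c]
            rw [if_neg (by omega), if_neg (by omega)]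
          have h2 : c (r + 1 - 1) = 1 := by
            rw [Nat.add_sub_cancel, hcr1]
          beta_reduce
          rw [h1, h2, mul_zero, if_neg (Nat.succ_ne_zero r), zero_sub, neg_ne_zero]
          have h3 : sb α β (1 : Polynomial ℂ) = 1 := by
            unfold sb
            rw [Polynomial.one_comp]
          rw [h3, mul_one]
          exact hb0
        · beta_reduce
          refine (Polynomial.natDegree_sub_le _ _).trans (max_le ?_ ?_)
          · refine Polynomial.natDegree_mul_le.trans ?_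
            have h1 := (sb_deg α β b).trans hb
            have h2 := hcd k
            omega
          · split_ifs
            · rw [Polynomial.natDegree_zero]
              exact Nat.zero_le _
            · refine Polynomial.natDegree_mul_le.trans ?_
              have h1 := (sb_deg α β (c (k - 1))).trans (hcd _)
              omega
        · have h1 := hc m (by omega)
          have h2 := hc (m + 1) (by omega)
          have hcr : c (r + 1) = 0 := by
            simp only [c]
            rw [if_neg (by omega), if_neg (by omega)]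
          have h3 : ∀ k ∈ Finset.range (r + 1 + 1),
              (sb α β b * c k - (if k = 0 then 0 else b * sb α β (c (k - 1)))).eval (t m) *
                pj (x (m + k)) (Fin.succ j) =
              b.eval (t (m + 1)) * ((c k).eval (t m) * x (m + k) j) -
                b.eval (t m) * (if k = 0 then 0 else
                  (c (k - 1)).eval (t (m + 1)) * x (m + k) j) := by
            intro k _
            have h4 : pj (x (m + k)) (Fin.succ j) = x (m + k) j := rfl
            rw [h4, Polynomial.eval_sub, Polynomial.eval_mul, sb_eval, ← haff]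
            by_cases hk : k = 0
            · rw [if_pos hk, if_pos hk, Polynomial.eval_zero]
              ring
            · rw [if_neg hk, if_neg hk, Polynomial.eval_mul, sb_eval, ← haff]
              ring
          rw [Finset.sum_congr rfl h3, Finset.sum_sub_distrib, ← Finset.mul_sum,
            ← Finset.mul_sum, Finset.sum_range_succ, hcr, Polynomial.eval_zero, zero_mul,
            add_zero, h1, Finset.sum_range_succ', if_pos rfl, add_zero]
          have h5 : ∑ k ∈ Finset.range (r + 1), (if k + 1 = 0 then (0 : ℂ) else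
              (c (k + 1 - 1)).eval (t (m + 1)) * x (m + (k + 1)) j) = b.eval (t (m + 1)) := by
            rw [← h2]
            refine Finset.sum_congr rfl fun k _ => ?_
            rw [if_neg (Nat.succ_ne_zero k), Nat.add_sub_cancel,
              show m + (k + 1) = m + 1 + k by omega]
          rw [h5]
          ring

theorem same_pj {x y : Fin n → ℂ} : Same (pj x) (pj y) ↔ x = y := by
  constructor
  · intro h
    funext j
    have h1 := h (Fin.succ j) 0
    simpa [pj] using h1
  · rintro rfl
    exact fun i j => mul_comm _ _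

/-- **The number of points, uniformly in the variety.** -/
theorem apts_uniform (n D r e : ℕ) : ∃ N : ℕ, ∀ S : Set (MvPolynomial (Fin (n + 1)) ℂ),
    (∀ F ∈ S, ∃ e, e ≤ D ∧ F.IsHomogeneous e) → ∀ G : MvPolynomial (Fin (n + 1)) ℂ,
      (∃ e, e ≤ D ∧ G.IsHomogeneous e) → GmDeg S G N → ∀ (M : ℕ) (t : ℕ → ℂ)
        (x : ℕ → Fin n → ℂ), ASeq r e S M t x → (∀ m ≤ M, eval (pj (x m)) G ≠ 0) →
          ∃ I : Finset ℕ, I.card ≤ N ∧ ∀ m ≤ M, ∃ i ∈ I, i ≤ m ∧ x i = x m := by
  classical
  obtain ⟨d, hd⟩ := awin_uniform n D r e ((r + 1 + 1) * (r + 1 + 1))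
  set N := d + (n + 1) * (n + 1) * (d + 1) * cst (r + 1) (2 * e) d * (d + 1) + 3 with hN
  refine ⟨N, fun S hS G hGd hgm M t x hx hG => ?_⟩
  rcases Nat.eq_zero_or_pos M with hM | hM
  · refine ⟨{0}, by rw [Finset.card_singleton]; omega, fun m hm => ?_⟩
    have hm0 : m = 0 := by omega
    exact ⟨0, Finset.mem_singleton_self _, Nat.zero_le _, by rw [hm0]⟩
  obtain ⟨M', rfl⟩ : ∃ M', M = M' + 1 := ⟨M - 1, by omega⟩
  obtain ⟨I, hI, hIm⟩ := count_pts (d := d) hx.wseq (fun w hw => by
    obtain ⟨k, m0, hk, hkd, hper⟩ := hd S hS G hGd (hgm.mono (by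
      rw [hN, Nat.add_assoc]
      exact Nat.le_add_right _ _)) _ _ (hx.window (w := w) (d := d) (by omega))
      fun m hm => hG _ (by omega)
    exact ⟨k, m0, hk, hkd, fun i hi => same_pj.2 (hper i hi)⟩)
  refine ⟨insert (M' + 1) I, ?_, fun m hm => ?_⟩
  · refine (Finset.card_insert_le _ _).trans ?_
    omega
  · rcases Nat.lt_or_ge M' m with h1 | h1
    · have hm' : m = M' + 1 := by omega
      exact ⟨M' + 1, Finset.mem_insert_self _ _, by omega, by rw [hm']⟩
    · obtain ⟨i, hi, him, hs⟩ := hIm m h1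
      exact ⟨i, Finset.mem_insert_of_mem hi, him, same_pj.1 hs⟩

/-! ### Extensions of `ℂ` -/

/-- The coordinates of the sequence `x 0, x 1, ...` of points of the affine `n`-space over the field
`L` satisfy, for `m ≤ M`, monic inhomogeneous linear recurrences
`x (m + r) j = b(t m) + ∑ a_k(t m) x (m + k) j`, `k < r`, with polynomials `a_k`, `b` of degree at most
`e` over `L`; the points `t 0, ..., t M` are different elements of `L` with
`t (m + 1) = α t m + β`. -/
structure MonSeq {L : Type} [Field L] (r e M : ℕ) (x : ℕ → Fin n → L) : Prop where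
  eqn : ∃ (t : ℕ → L) (α β : L), (∀ m, t (m + 1) = α * t m + β) ∧
    (∀ i j, i < j → j ≤ M → t i ≠ t j) ∧ ∀ j, ∃ (a : ℕ → Polynomial L) (b : Polynomial L),
      (∀ k, (a k).natDegree ≤ e) ∧ b.natDegree ≤ e ∧ ∀ m ≤ M, x (m + r) j = b.eval (t m) +
        ∑ k ∈ Finset.range r, (a k).eval (t m) * x (m + k) j

theorem pj_map {K E : Type} [Field K] [Field E] (f : K →+* E) (x : Fin n → K) :
    pj (fun j => f (x j)) = fun j => f (pj x j) := by
  funext j
  refine Fin.cases ?_ (fun i => ?_) j
  · exact (map_one f).symm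
  · rfl

/-- **Descent** to sequences over `ℂ`. -/
theorem desc {L : Type} [Field L] [Algebra ℂ L] {r e M : ℕ} {x : ℕ → Fin n → L}
    (h : MonSeq r e M x) (S0 : Finset (MvPolynomial (Fin (n + 1)) ℂ)) :
    ∃ (y : ℕ → Fin n → ℂ) (t : ℕ → ℂ), (∀ i m, y i = y m ↔ x i = x m) ∧
      (∀ F ∈ S0, ∀ m, eval (pj (y m)) F = 0 ↔ aeval (pj (x m)) F = 0) ∧
      ((∀ F ∈ S0, True) → ∀ S : Set (MvPolynomial (Fin (n + 1)) ℂ),
        (∀ m ≤ M, ∀ F ∈ S, eval (pj (y m)) F = 0) → ASeq r e S M t y) := by
  classical
  obtain ⟨t, α, β, haff, hinj, heq⟩ := h.eqn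
  choose a b ha hb hrec using heq
  obtain ⟨k0, _, _, hk0, -, hcoef⟩ := exists_ctbleK (k := ℂ)
    (⋃ F ∈ S0, (F.coeffs : Set ℂ)) (Set.Countable.biUnion S0.countable_toSet
      fun F _ => F.coeffs.countable_toSet)
  have hk0' : Countable k0 := hk0
  have hliftF : ∀ F ∈ S0, ∃ F' : MvPolynomial (Fin (n + 1)) k0, map (algebraMap k0 ℂ) F' = F :=
    fun F hF => mem_range_map_iff_coeffs_subset.2
      fun c hc => hcoef c (Set.mem_biUnion (x := F) hF hc)
  let _ : Algebra k0 L := ((algebraMap ℂ L).comp (algebraMap k0 ℂ)).toAlgebra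
  have _ : IsScalarTower k0 ℂ L := IsScalarTower.of_algebraMap_eq fun _ => rfl
  let C1 : Set L := (⋃ (m : ℕ) (j : Fin n), {x m j}) ∪
    ((⋃ m : ℕ, {t m}) ∪ ({α, β} ∪
      ((⋃ (j : Fin n) (k : ℕ) (i : ℕ), {(a j k).coeff i}) ∪
        ⋃ (j : Fin n) (i : ℕ), {(b j).coeff i})))
  have hC1 : C1.Countable := by
    refine Set.Countable.union ?_ (Set.Countable.union ?_ (Set.Countable.union ?_
      (Set.Countable.union ?_ ?_)))
    · exact Set.countable_iUnion fun m => Set.countable_iUnion fun j => Set.countable_singleton _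
    · exact Set.countable_iUnion fun m => Set.countable_singleton _
    · exact (Set.countable_singleton _).insert _
    · exact Set.countable_iUnion fun j => Set.countable_iUnion fun k =>
        Set.countable_iUnion fun i => Set.countable_singleton _
    · exact Set.countable_iUnion fun j => Set.countable_iUnion fun i =>
        Set.countable_singleton _
  obtain ⟨L0, _, _, _, ι, hι⟩ := exists_sub (k0 := k0) C1 hC1
  have hιinj : Function.Injective ι := ι.toRingHom.injective
  choose x0 hx0 using fun (m : ℕ) (j : Fin n) => hι (x m j) (by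
    refine Or.inl ?_
    simp only [Set.mem_iUnion]
    exact ⟨m, j, rfl⟩)
  choose t0 ht0 using fun m : ℕ => hι (t m) (by
    refine Or.inr (Or.inl ?_)
    simp only [Set.mem_iUnion]
    exact ⟨m, rfl⟩)
  obtain ⟨α0, hα0⟩ := hι α (Or.inr (Or.inr (Or.inl (Or.inl rfl))))
  obtain ⟨β0, hβ0⟩ := hι β (Or.inr (Or.inr (Or.inl (Or.inr rfl))))
  have hal : ∀ j k, ∃ Q : Polynomial L0, Q.map (ι : L0 →+* L) = a j k := by
    intro j k
    rw [← Polynomial.mem_lifts, Polynomial.lifts_iff_coeff_lifts]
    intro i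
    obtain ⟨c, hc⟩ := hι ((a j k).coeff i) (by
      refine Or.inr (Or.inr (Or.inr (Or.inl ?_)))
      simp only [Set.mem_iUnion]
      exact ⟨j, k, i, rfl⟩)
    exact ⟨c, hc⟩
  have hbl : ∀ j, ∃ Q : Polynomial L0, Q.map (ι : L0 →+* L) = b j := by
    intro j
    rw [← Polynomial.mem_lifts, Polynomial.lifts_iff_coeff_lifts]
    intro i
    obtain ⟨c, hc⟩ := hι ((b j).coeff i) (by
      refine Or.inr (Or.inr (Or.inr (Or.inr ?_)))
      simp only [Set.mem_iUnion]
      exact ⟨j, i, rfl⟩)
    exact ⟨c, hc⟩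
  choose a0 ha0 using hal
  choose b0 hb0 using hbl
  obtain ⟨τ⟩ := rel_embed k0 L0
  have hτinj : Function.Injective τ := τ.toRingHom.injective
  have hev : ∀ (P0 : Polynomial L0) (P : Polynomial L), P0.map (ι : L0 →+* L) = P → ∀ m,
      ι (P0.eval (t0 m)) = P.eval (t m) := by
    intro P0 P hP m
    rw [← hP, Polynomial.eval_map, ← ht0]
    exact (Polynomial.eval₂_at_apply (ι : L0 →+* L) (p := P0) (t0 m)).symm
  have hrec0 : ∀ j, ∀ m ≤ M, x0 (m + r) j = (b0 j).eval (t0 m) +
      ∑ k ∈ Finset.range r, (a0 j k).eval (t0 m) * x0 (m + k) j := by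
    intro j m hm
    apply hιinj
    rw [map_add, map_sum, hx0, hev _ _ (hb0 j), hrec j m hm]
    congr 1
    refine Finset.sum_congr rfl fun k _ => ?_
    rw [map_mul, hx0, hev _ _ (ha0 j k)]
  have haff0 : ∀ m, t0 (m + 1) = α0 * t0 m + β0 := by
    intro m
    apply hιinj
    rw [map_add, map_mul, ht0, ht0, hα0, hβ0, haff]
  have hevτ : ∀ (P0 : Polynomial L0) (m : ℕ),
      (P0.map (τ : L0 →+* ℂ)).eval (τ (t0 m)) = τ (P0.eval (t0 m)) := by
    intro P0 m
    rw [Polynomial.eval_map]
    exact Polynomial.eval₂_at_apply (τ : L0 →+* ℂ) (p := P0) (t0 m)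
  refine ⟨fun m j => τ (x0 m j), fun m => τ (t0 m), fun i m => ?_, fun F hF m => ?_,
    fun _ S hS => ⟨⟨τ α0, τ β0, fun m => ?_⟩, fun i j hij hj h1 => ?_, fun j => ?_, hS⟩⟩
  · constructor
    · intro h1
      funext j
      have h2 : x0 i j = x0 m j := hτinj (congrFun h1 j)
      rw [← hx0, ← hx0, h2]
    · intro h1
      funext j
      have h2 : x0 i j = x0 m j := hιinj (by rw [hx0, hx0, h1])
      change τ (x0 i j) = τ (x0 m j)
      rw [h2]
  · obtain ⟨F', rfl⟩ := hliftF F hF
    have h1 : eval (pj fun j => τ (x0 m j)) (map (algebraMap k0 ℂ) F') =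
        τ (aeval (pj (x0 m)) F') := by
      have h3 : (pj fun j => τ (x0 m j)) = fun j => τ (pj (x0 m) j) :=
        pj_map (τ : L0 →+* ℂ) (x0 m)
      rw [eval_map, MvPolynomial.comp_aeval_apply, aeval_def, h3]
    have h2 : ι (aeval (pj (x0 m)) F') = aeval (pj (x m)) (map (algebraMap k0 ℂ) F') := by
      rw [MvPolynomial.comp_aeval_apply, MvPolynomial.aeval_map_algebraMap]
      have h3 : (fun j => ι (pj (x0 m) j)) = pj (x m) := by
        have h4 : (pj fun j => ι (x0 m j)) = fun j => ι (pj (x0 m) j) :=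
          pj_map (ι : L0 →+* L) (x0 m)
        rw [← h4]
        congr 1
        funext j
        exact hx0 m j
      rw [h3]
    rw [h1, map_eq_zero, ← map_eq_zero ι, h2]
  · rw [haff0, map_add, map_mul]
  · refine hinj i j hij hj ?_
    rw [← ht0, ← ht0, hτinj h1]
  · refine ⟨fun k => (a0 j k).map (τ : L0 →+* ℂ), (b0 j).map (τ : L0 →+* ℂ), fun k => ?_, ?_,
      fun m hm => ?_⟩
    · refine Polynomial.natDegree_map_le.trans ?_
      have h1 := ha j k
      rwa [← ha0, Polynomial.natDegree_map] at h1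
    · refine Polynomial.natDegree_map_le.trans ?_
      have h1 := hb j
      rwa [← hb0, Polynomial.natDegree_map] at h1
    · rw [hrec0 j m hm, map_add, map_sum, hevτ]
      congr 1
      refine Finset.sum_congr rfl fun k _ => ?_
      rw [map_mul, hevτ]

/-- **The number of points**, uniformly in the variety, over all extensions of `ℂ`. -/
theorem ext_uniform (n D r e : ℕ) : ∃ N : ℕ, ∀ S : Set (MvPolynomial (Fin (n + 1)) ℂ),
    (∀ F ∈ S, ∃ e, e ≤ D ∧ F.IsHomogeneous e) → ∀ G : MvPolynomial (Fin (n + 1)) ℂ,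
      (∃ e, e ≤ D ∧ G.IsHomogeneous e) → GmDeg S G N → ∀ (L : Type) [Field L] [Algebra ℂ L]
        (M : ℕ) (x : ℕ → Fin n → L), MonSeq r e M x →
          (∀ m ≤ M, (∀ F ∈ S, aeval (pj (x m)) F = 0) ∧ aeval (pj (x m)) G ≠ 0) →
            ∃ I : Finset ℕ, I.card ≤ N ∧ ∀ m ≤ M, ∃ i ∈ I, i ≤ m ∧ x i = x m := by
  classical
  obtain ⟨N, hN⟩ := apts_uniform n D r e
  refine ⟨N, fun S hS G hG hgm L _ _ M x hx hX => ?_⟩
  obtain ⟨S0, hS0, hS0'⟩ := exists_finite_forms S
  obtain ⟨y, t, hy1, hy2, hy3⟩ := desc hx (insert G S0)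
  have hon : ∀ m ≤ M, ∀ F ∈ S, eval (pj (y m)) F = 0 := by
    intro m hm F hF
    rw [← aeval_ev]
    exact hS0' ℂ (pj (y m)) (fun F hF => by
      rw [aeval_ev]
      exact (hy2 F (Finset.mem_insert_of_mem hF) m).2 ((hX m hm).1 F (hS0 F hF))) F hF
  obtain ⟨I, hI, hIm⟩ := hN S hS G hG hgm M t y (hy3 (fun _ _ => trivial) S hon) fun m hm h0 =>
    (hX m hm).2 ((hy2 G (Finset.mem_insert_self _ _) m).1 h0)
  refine ⟨I, hI, fun m hm => ?_⟩
  obtain ⟨i, hi, him, hs⟩ := hIm m hm
  exact ⟨i, hi, him, (hy1 i m).1 hs⟩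

end Pool.Agent.Q309.AP
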