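import Pool.Agent.Q309.AP.Lim

/-!
Affine varieties: repetitions in windows of bounded length of sequences of points given by monic
linear recurrences.
-/

set_option autoImplicit false

namespace Pool.Agent.Q309.AP

open MvPolynomial Filter
open Pool.Agent.Y377.ST (theta_ne)
open Pool.Agent.Q1.SL
open Pool.Agent.TH143.HE (gm)
open Pool.Agent.Q309.DU (hyper_ge)

variable {n : ℕ}

/-- the point of the projective space -/
def pj {K : Type} [One K] (x : Fin n → K) : Fin (n + 1) → K := Fin.cons 1 x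

/-- The points `x 0, ..., x B` of the affine `n`-space lie on the projective variety of `S`, their
coordinates satisfy monic inhomogeneous linear recurrences of order `r`, for `m ≤ B`, whose
coefficients are polynomials of degree at most `e` at the different points `t 0, ..., t B` of an orbit
of an affine map. -/
structure ASeq (r e : ℕ) (S : Set (MvPolynomial (Fin (n + 1)) ℂ)) (B : ℕ) (t : ℕ → ℂ)
    (x : ℕ → Fin n → ℂ) : Prop where
  aff : ∃ α β : ℂ, ∀ m, t (m + 1) = α * t m + β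
  inj : ∀ i j, i < j → j ≤ B → t i ≠ t j
  eqn : ∀ j, ∃ (a : ℕ → Polynomial ℂ) (b : Polynomial ℂ), (∀ k, (a k).natDegree ≤ e) ∧
    b.natDegree ≤ e ∧ ∀ m ≤ B, x (m + r) j = b.eval (t m) +
      ∑ k ∈ Finset.range r, (a k).eval (t m) * x (m + k) j
  on : ∀ m ≤ B, ∀ F ∈ S, eval (pj (x m)) F = 0

/-- **The limit.** -/
theorem ultra_awin {D r e : ℕ} {S : ℕ → Set (MvPolynomial (Fin (n + 1)) ℂ)}
    (hS : ∀ i, ∀ F ∈ S i, ∃ e, e ≤ D ∧ F.IsHomogeneous e) {G : ℕ → MvPolynomial (Fin (n + 1)) ℂ}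
    (hG : ∀ i, ∃ e, e ≤ D ∧ (G i).IsHomogeneous e) {t : ℕ → ℕ → ℂ} {x : ℕ → ℕ → Fin n → ℂ}
    (h : ∀ i, ASeq r e (S i) i (t i) (x i)) (hGx : ∀ i, ∀ m ≤ i, eval (pj (x i m)) (G i) ≠ 0) :
    (∃ k m0 : ℕ, 0 < k ∧ ∀ m, m0 ≤ m → ∀ᶠ i in (hyperfilter ℕ : Filter ℕ),
      x i (m + k) = x i m) ∨ ∃ d0 l : ℕ, l ≤ d0 ∧ ∀ᶠ i in (hyperfilter ℕ : Filter ℕ),
        ∃ p : Fin n → Polynomial ℂ, (∀ j, (p j).natDegree ≤ d0) ∧
          (∀ F ∈ S i, aeval (pc l p) F = 0) ∧ NonC (pc l p) ∧ aeval (pc l p) (G i) ≠ 0 := by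
  classical
  choose α β hαβ using fun i => (h i).aff
  choose a b hae hbe hx using fun i => (h i).eqn
  obtain ⟨θ, hsur, hk⟩ := exists_theta
  have hΘ : ∀ f : ℕ → ℂ, (∃ n, ∀ i, n ≤ i → f i = 0) → θ f = 0 := by
    rintro f ⟨N, hN⟩
    rw [hk]
    filter_upwards [hyper_ge N] with i hi
    exact hN i hi
  let ts : ℕ → ℂ := fun m => θ fun i => t i m
  let xs : ℕ → Fin n → ℂ := fun m j => θ fun i => x i m j
  have hlim : ∀ (P : ℕ → Polynomial ℂ), (∀ i, (P i).natDegree ≤ e) → ∃ Q : Polynomial ℂ,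
      ∀ m, Q.eval (ts m) = θ fun i => (P i).eval (t i m) := by
    intro P hP
    refine ⟨∑ c ∈ Finset.range (e + 1), Polynomial.C (θ fun i => (P i).coeff c) *
      Polynomial.X ^ c, fun m => ?_⟩
    have h1 : (fun i => (P i).eval (t i m)) =
        ∑ c ∈ Finset.range (e + 1), (fun i => (P i).coeff c) * (fun i => t i m) ^ c := by
      funext i
      rw [Polynomial.eval_eq_sum_range' (n := e + 1) (by have := hP i; omega), Finset.sum_apply]
      rfl
    rw [h1, map_sum, Polynomial.eval_finsetSum]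
    refine Finset.sum_congr rfl fun c _ => ?_
    rw [Polynomial.eval_mul, Polynomial.eval_C, Polynomial.eval_pow, Polynomial.eval_X, map_mul,
      map_pow]
  choose A hA using fun j k => hlim (fun i => a i j k) fun i => hae i j k
  choose B hB using fun j => hlim (fun i => b i j) fun i => hbe i j
  have hts : ∀ m, ts (m + 1) = θ α * ts m + θ β := by
    intro m
    change θ (fun i => t i (m + 1)) = _
    have h1 : (fun i => t i (m + 1)) = α * (fun i => t i m) + β := by
      funext i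
      exact hαβ i m
    rw [h1, map_add, map_mul]
  have htinj : Function.Injective ts := by
    have h1 : ∀ a b : ℕ, a < b → ts a ≠ ts b := by
      intro a b hab h2
      obtain ⟨-, h3⟩ := theta_ne hΘ (fun (_ : Unit) i => t i a - t i b) b (fun i hi =>
        ⟨(), sub_ne_zero.2 ((h i).inj a b hab hi)⟩)
      apply h3
      change θ ((fun i => t i a) - fun i => t i b) = 0
      rw [map_sub]
      exact sub_eq_zero.2 h2
    intro a b hab
    by_contra hne
    rcases lt_or_gt_of_ne hne with h2 | h2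
    · exact h1 a b h2 hab
    · exact h1 b a h2 hab.symm
  have hrec : ∀ j m, xs (m + r) j = (B j).eval (ts m) +
      ∑ k ∈ Finset.range r, (A j k).eval (ts m) * xs (m + k) j := by
    intro j m
    have h1 : (B j).eval (ts m) + ∑ k ∈ Finset.range r, (A j k).eval (ts m) * xs (m + k) j =
        θ ((fun i => (b i j).eval (t i m)) + ∑ k ∈ Finset.range r,
          (fun i => (a i j k).eval (t i m)) * fun i => x i (m + k) j) := by
      rw [map_add, map_sum, hB]
      congr 1
      refine Finset.sum_congr rfl fun k _ => ?_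
      rw [map_mul, hA]
    rw [h1, ← sub_eq_zero]
    change θ (fun i => x i (m + r) j) - _ = 0
    rw [← map_sub]
    apply hΘ
    refine ⟨m, fun i hi => ?_⟩
    rw [Pi.sub_apply, Pi.add_apply, Finset.sum_apply, hx i j m hi, sub_eq_zero]
    rfl
  have hpj : ∀ m, (fun j => θ fun i => pj (x i m) j) = pj (xs m) := by
    intro m
    funext j
    refine Fin.cases ?_ (fun i => ?_) j
    · exact map_one θ
    · rfl
  let s : Set (MvPolynomial (Fin (n + 1)) ℂ) :=
    {F' | ∃ F : ℕ → MvPolynomial (Fin (n + 1)) ℂ,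
      (∀ᶠ i in (hyperfilter ℕ : Filter ℕ), F i ∈ S i) ∧ F' = limT θ (TD (n + 1) D) F}
  have hdeg : ∀ F : ℕ → MvPolynomial (Fin (n + 1)) ℂ,
      (∀ᶠ i in (hyperfilter ℕ : Filter ℕ), F i ∈ S i) → ∃ e', e' ≤ D ∧
        ∀ᶠ i in (hyperfilter ℕ : Filter ℕ), (F i).IsHomogeneous e' := fun F hF =>
    exists_deg (D := D) (by
      filter_upwards [hF] with i hi
      exact hS i _ hi)
  have hs : ∀ G ∈ s, ∃ d, G.IsHomogeneous d := by
    rintro _ ⟨F, hF, rfl⟩
    obtain ⟨e', -, he'⟩ := hdeg F hF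
    exact ⟨e', limT_homog hk he'⟩
  have hX : ∀ m, ∀ F ∈ s, eval (Fin.cons 1 (xs m) : Fin (n + 1) → ℂ) F = 0 := by
    rintro m _ ⟨F, hF, rfl⟩
    obtain ⟨e', he'D, he'⟩ := hdeg F hF
    have h1 := eval_limT hk (T := TD (n + 1) D) (F := F) (by
      filter_upwards [he'] with i hi
      exact support_hom hi he'D) fun i => pj (x i m)
    rw [hpj] at h1
    change eval (pj (xs m)) _ = 0
    rw [h1, hk]
    filter_upwards [hF, hyper_ge m] with i hi hmi
    exact (h i).on m hmi _ hi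
  obtain ⟨e', he'D, he'⟩ := exists_deg (F := G) (D := D) (Eventually.of_forall hG)
  have hGT : ∀ᶠ i in (hyperfilter ℕ : Filter ℕ), (G i).support ⊆ TD (n + 1) D := by
    filter_upwards [he'] with i hi
    exact support_hom hi he'D
  have hZ : ∀ m, eval (Fin.cons 1 (xs m) : Fin (n + 1) → ℂ) (limT θ (TD (n + 1) D) G) ≠ 0 := by
    intro m
    have h1 := eval_limT hk hGT fun i => pj (x i m)
    rw [hpj] at h1
    change eval (pj (xs m)) _ ≠ 0
    rw [h1]
    intro h0
    rw [hk] at h0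
    obtain ⟨i, h2, h3⟩ := (h0.and (hyper_ge m)).exists
    exact hGx i m h3 h2
  rcases aff_dich hts htinj hs ⟨e', limT_homog hk he'⟩ hrec hX hZ with
    ⟨k, m0, hk0, hper⟩ | ⟨l, p, hp1, hp2, hp3⟩
  · refine Or.inl ⟨k, m0, hk0, fun m hm => ?_⟩
    have h1 : ∀ u, ∀ᶠ i in (hyperfilter ℕ : Filter ℕ), x i (m + k) u = x i m u := by
      intro u
      have h2 := congrFun (hper m hm) u
      have h3 : θ ((fun i => x i (m + k) u) - fun i => x i m u) = 0 := by
        rw [map_sub]
        exact sub_eq_zero.2 h2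
      rw [hk] at h3
      filter_upwards [h3] with i hi
      exact sub_eq_zero.1 hi
    rw [← Filter.eventually_all] at h1
    filter_upwards [h1] with i hi
    exact funext hi
  · set d0 := max l (Finset.univ.sup fun j => (pc l p j).natDegree) with hd0
    have h1 := los_curve hsur hk (pc l p) (d0 := d0)
      (fun j => (Finset.le_sup (f := fun j => (pc l p j).natDegree) (Finset.mem_univ j)).trans
        (le_max_right _ _)) hp2
      (S := S) (T := TD (n + 1) D) (fun i F hF => by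
        obtain ⟨e1, he1, he1'⟩ := hS i F hF
        exact support_hom he1' he1)
      (fun F hF => hp1 _ ⟨F, hF, rfl⟩) (T' := TD (n + 1) D) (G := G) hGT hp3
    refine Or.inr ⟨d0, l, le_max_left _ _, ?_⟩
    filter_upwards [h1] with i hi
    obtain ⟨q, hq1, hq2, hq3, hq4, hq5⟩ := hi
    have hq : pc l (fun j => q (Fin.succ j)) = q := by
      funext j
      refine Fin.cases ?_ (fun i => ?_) j
      · exact (hq5 0 l (le_max_left _ _) rfl).symm
      · rfl
    refine ⟨fun j => q (Fin.succ j), fun j => hq1 _, ?_, ?_, ?_⟩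
    · rw [hq]
      exact hq2
    · rw [hq]
      exact hq3
    · rw [hq]
      exact hq4

/-- All nonconstant morphisms `u ↦ p(u) / u ^ l` from `G_m` to the part of the projective variety of
`S` in the affine space, with polynomials `p` of degree at most `d` and `l ≤ d`, have their image in
`G = 0`. -/
def GmDeg (S : Set (MvPolynomial (Fin (n + 1)) ℂ)) (G : MvPolynomial (Fin (n + 1)) ℂ) (d : ℕ) :
    Prop :=
  ∀ (l : ℕ) (p : Fin n → Polynomial ℂ), l ≤ d → (∀ j, (p j).natDegree ≤ d) →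
    (∀ u, u ≠ 0 → ∀ F ∈ S, eval (pj (gm l p u)) F = 0) → (∃ u, u ≠ 0 ∧ gm l p u ≠ gm l p 1) →
      ∀ u, u ≠ 0 → eval (pj (gm l p u)) G = 0

theorem GmDeg.mono {S : Set (MvPolynomial (Fin (n + 1)) ℂ)} {G : MvPolynomial (Fin (n + 1)) ℂ}
    {d d' : ℕ} (h : GmDeg S G d') (hd : d ≤ d') : GmDeg S G d :=
  fun l p hl hp => h l p (hl.trans hd) fun j => (hp j).trans hd

/-- **Windows, uniformly in the variety.** -/
theorem awin_uniform (n D r e R : ℕ) : ∃ d : ℕ, ∀ S : Set (MvPolynomial (Fin (n + 1)) ℂ),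
    (∀ F ∈ S, ∃ e, e ≤ D ∧ F.IsHomogeneous e) → ∀ G : MvPolynomial (Fin (n + 1)) ℂ,
      (∃ e, e ≤ D ∧ G.IsHomogeneous e) → GmDeg S G d → ∀ (t : ℕ → ℂ) (x : ℕ → Fin n → ℂ),
        ASeq r e S d t x → (∀ m ≤ d, eval (pj (x m)) G ≠ 0) →
          ∃ k m0, 0 < k ∧ m0 + R + k ≤ d ∧ ∀ i ≤ R, x (m0 + i + k) = x (m0 + i) := by
  classical
  by_contra hcon
  push Not at hcon
  choose S hS G hGd hrat t x hx hG hper using hcon
  rcases ultra_awin hS hGd hx hG with ⟨k, m0, hk, hw⟩ | ⟨d0, l, hl, hm⟩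
  · have h1 : ∀ᶠ i in (hyperfilter ℕ : Filter ℕ), ∀ j ∈ Finset.range (R + 1),
        x i (m0 + j + k) = x i (m0 + j) := by
      rw [Filter.eventually_all_finset]
      intro j _
      exact hw (m0 + j) (by omega)
    obtain ⟨i, hi1, hi2⟩ := (h1.and (hyper_ge (m0 + R + k))).exists
    obtain ⟨j, hj, hne⟩ := hper i k m0 hk hi2
    exact hne (hi1 j (Finset.mem_range.2 (by omega)))
  · obtain ⟨i, ⟨p, hp1, hp2, hp3, hp4⟩, hi⟩ := (hm.and (hyper_ge d0)).exists
    obtain ⟨e1, -, he1⟩ := hGd i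
    apply hp4
    rw [pc_zero l p he1]
    refine hrat i l p (hl.trans hi) (fun j => (hp1 j).trans hi) (fun u hu F hF => ?_)
      ((pc_nonC l p).1 hp3)
    obtain ⟨e2, -, he2⟩ := hS i F hF
    exact (pc_zero l p he2).1 (hp2 F hF) u hu

end Pool.Agent.Q309.AP
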